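import Pool.Agent.FinBlk.Blk

/-!
# A bounded approximate identity on the blocks (T2, text 1)
-/

set_option autoImplicit false
set_option linter.unusedSectionVars false

noncomputable section

namespace Pool.Agent.FinBlk

universe u v

open ContinuousLinearMap Filter Topology
open Pool.Agent.MP_a77edb_an Pool.Agent.CptDim

variable {A : Type u} [NonUnitalNormedRing A] [NormedSpace ℂ A] [IsScalarTower ℂ A A]
  [SMulCommClass ℂ A A]

namespace Blk

variable (B : Blk A)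

private theorem fbl_ba_pos (k : ℕ) : 0 < ‖B.t k‖ := by
  refine lt_of_le_of_ne (ContinuousLinearMap.opNorm_nonneg _) fun h => ?_
  have h1 := (B.t k).le_opNorm (B.p k)
  rw [← h, zero_mul, B.t_p, norm_one] at h1
  exact absurd h1 (by norm_num)

/-- the normed functional -/
private def fbl_ba_X (k : ℕ) : A →L[ℂ] ℂ := (((‖B.t k‖)⁻¹ : ℝ) : ℂ) • B.t k

private theorem fbl_ba_apply (k : ℕ) (a : A) :
    fbl_ba_X B k a = (((‖B.t k‖)⁻¹ : ℝ) : ℂ) * B.t k a := rfl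

private theorem fbl_ba_le (k : ℕ) (a : A) : ‖fbl_ba_X B k a‖ ≤ ‖a‖ := by
  rw [fbl_ba_apply, norm_mul, Complex.norm_real, norm_inv,
    Real.norm_of_nonneg (ContinuousLinearMap.opNorm_nonneg _), inv_mul_le_iff₀ (fbl_ba_pos B k)]
  exact (B.t k).le_opNorm a

private theorem fbl_ba_zero {k : ℕ} {a : A} (h : B.p k * a = 0) : fbl_ba_X B k a = 0 := by
  rw [fbl_ba_apply, Blk0.t_apply, B.pi_eq_zero h, map_zero, mul_zero]

include B in
/-- Module `ba`: `X k = t_k / ‖t_k‖`. -/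
theorem exists_norming : ∃ (X : ℕ → (A →L[ℂ] ℂ)) (ξ : ℕ → A), (∀ k a, ‖X k a‖ ≤ ‖a‖) ∧
    (∀ k, ‖ξ k‖ ≤ 2) ∧ (∀ k, X k (ξ k) = 1) ∧
    (∀ a, Tendsto (fun k => X k a) atTop (𝓝 0)) ∧
    ∀ a, Tendsto (fun k => ‖(X k).comp (ContinuousLinearMap.mul ℂ A a)‖) atTop (𝓝 0) := by
  have hξ : ∀ k, ∃ ξ : A, ‖ξ‖ ≤ 2 ∧ fbl_ba_X B k ξ = 1 := by
    intro k
    have hk := fbl_ba_pos B k
    obtain ⟨x, hx1, hx2⟩ := (B.t k).exists_lt_apply_of_lt_opNorm (half_lt_self hk)
    have h1 : 1 / 2 < ‖fbl_ba_X B k x‖ := by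
      rw [fbl_ba_apply, norm_mul, Complex.norm_real, norm_inv,
        Real.norm_of_nonneg (ContinuousLinearMap.opNorm_nonneg _), lt_inv_mul_iff₀ hk]
      linarith
    have h2 : fbl_ba_X B k x ≠ 0 := by
      intro h
      rw [h, norm_zero] at h1
      norm_num at h1
    refine ⟨(fbl_ba_X B k x)⁻¹ • x, ?_, ?_⟩
    · rw [norm_smul, norm_inv]
      have h3 : 0 < ‖fbl_ba_X B k x‖ := norm_pos_iff.mpr h2
      rw [inv_mul_le_iff₀ h3]
      linarith
    · rw [map_smul, smul_eq_mul, inv_mul_cancel₀ h2]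
  choose ξ hξ1 hξ2 using hξ
  refine ⟨fbl_ba_X B, ξ, fbl_ba_le B, hξ1, hξ2, fun a => ?_, fun a => ?_⟩
  · rw [Metric.tendsto_atTop]
    intro ε hε
    obtain ⟨b, hb, k₀, hk⟩ := B.dense a ε hε
    refine ⟨k₀, fun k hkk => ?_⟩
    rw [dist_zero_right]
    have h1 : fbl_ba_X B k a = fbl_ba_X B k (a - b) := by
      rw [map_sub, fbl_ba_zero B (hk k hkk), sub_zero]
    rw [h1]
    exact (fbl_ba_le B k _).trans_lt hb
  · rw [Metric.tendsto_atTop]
    intro ε hε
    obtain ⟨b, hb, k₀, hk⟩ := B.dense a ε hε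
    refine ⟨k₀, fun k hkk => ?_⟩
    rw [dist_zero_right, Real.norm_of_nonneg (ContinuousLinearMap.opNorm_nonneg _)]
    refine lt_of_le_of_lt (ContinuousLinearMap.opNorm_le_bound _ (norm_nonneg (a - b)) fun c => ?_) hb
    show ‖fbl_ba_X B k (a * c)‖ ≤ ‖a - b‖ * ‖c‖
    have h1 : fbl_ba_X B k (a * c) = fbl_ba_X B k ((a - b) * c) := by
      rw [sub_mul, map_sub, fbl_ba_zero B (a := b * c) (by rw [← mul_assoc, hk k hkk, zero_mul]),
        sub_zero]
    rw [h1]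
    exact (fbl_ba_le B k _).trans (norm_mul_le _ _)

/-- Module `bb`: two of the `ξ k` which are close on the blocks `i ≤ n` (compactness of balls of
the finite-dimensional spaces `p_i A`). -/
theorem exists_close (ξ : ℕ → A) (hξ : ∀ k, ‖ξ k‖ ≤ 2) (n : ℕ) {ε : ℝ} (hε : 0 < ε)
    (R : ℕ → ℕ → Prop) (hR : ∀ k, ∃ k₀, ∀ k', k₀ ≤ k' → R k k') :
    ∃ k k', n ≤ k ∧ k < k' ∧ R k k' ∧ ∀ i ≤ n, ‖B.p i * (ξ k' - ξ k)‖ ≤ ε := by
  let W : Type _ := ∀ i : Fin (n + 1), B.V i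
  let f : ℕ → W := fun k i => ⟨B.p i * ξ k, by
    show B.p i * (B.p i * ξ k) = B.p i * ξ k
    rw [← mul_assoc, B.p_idem]⟩
  have hprop : ProperSpace W := FiniteDimensional.proper ℂ W
  have hbd : ∀ k, f k ∈ Metric.closedBall (0 : W) (∑ i : Fin (n + 1), ‖B.p i‖ * 2) := by
    intro k
    rw [mem_closedBall_zero_iff, pi_norm_le_iff_of_nonneg (Finset.sum_nonneg fun i _ =>
      mul_nonneg (norm_nonneg _) zero_le_two)]
    intro i
    show ‖B.p i * ξ k‖ ≤ _
    refine (norm_mul_le _ _).trans ?_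
    refine (mul_le_mul_of_nonneg_left (hξ k) (norm_nonneg _)).trans ?_
    exact Finset.single_le_sum (f := fun i : Fin (n + 1) => ‖B.p i‖ * 2)
      (fun i _ => mul_nonneg (norm_nonneg _) zero_le_two) (Finset.mem_univ i)
  obtain ⟨w, _, φ, hφ, hw⟩ := tendsto_subseq_of_bounded Metric.isBounded_closedBall hbd
  have hc := hw.cauchySeq
  rw [Metric.cauchySeq_iff] at hc
  obtain ⟨N, hN⟩ := hc ε hε
  obtain ⟨k₀, hk₀⟩ := hR (φ (max N n))
  have h1 : max N n ≤ φ (max N n) := hφ.id_le _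
  set m := max (max N n + 1) k₀ with hm
  have h2 : m ≤ φ m := hφ.id_le _
  refine ⟨φ (max N n), φ m, ?_, hφ (by omega), hk₀ _ (by omega), fun i hi => ?_⟩
  · omega
  · have h3 := (hN m (by omega) (max N n) (by omega)).le
    rw [dist_eq_norm] at h3
    have h4 := (norm_le_pi_norm (f (φ m) - f (φ (max N n))) ⟨i, by omega⟩).trans h3
    rw [mul_sub]
    exact h4

/-- Module `bc` (from `exists_close` with `ε = 1 / (2 (n + 1))`, `R k k' = (‖X k' (ξ k)‖ ≤ 1 / 2)`). -/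
theorem exists_zeta (X : ℕ → (A →L[ℂ] ℂ)) (ξ : ℕ → A) (hX : ∀ k a, ‖X k a‖ ≤ ‖a‖)
    (hξ : ∀ k, ‖ξ k‖ ≤ 2) (h1 : ∀ k, X k (ξ k) = 1)
    (h2 : ∀ a, Tendsto (fun k => X k a) atTop (𝓝 0)) (n : ℕ) :
    ∃ κ, n ≤ κ ∧ ∃ ζ : A, ‖ζ‖ ≤ 8 ∧ X κ ζ = 1 ∧ ∀ i ≤ n, ‖B.p i * ζ‖ ≤ 1 / ((n : ℝ) + 1) := by
  have hε : (0 : ℝ) < 1 / (2 * ((n : ℝ) + 1)) := by positivity
  obtain ⟨k, k', hk1, hk2, hR, hc⟩ := B.exists_close ξ hξ n hε
    (fun k k' => ‖X k' (ξ k)‖ ≤ 1 / 2) (fun k => by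
      have h := h2 (ξ k)
      rw [Metric.tendsto_atTop] at h
      obtain ⟨N, hN⟩ := h (1 / 2) (by norm_num)
      refine ⟨N, fun k' hk' => ?_⟩
      have := hN k' hk'
      rw [dist_zero_right] at this
      exact this.le)
  set z : ℂ := X k' (ξ k' - ξ k) with hz
  have hz1 : 1 / 2 ≤ ‖z‖ := by
    rw [hz, map_sub, h1]
    have h3 := norm_sub_norm_le (1 : ℂ) (X k' (ξ k))
    rw [norm_one] at h3
    linarith
  have hz0 : 0 < ‖z‖ := by linarith
  refine ⟨k', by omega, z⁻¹ • (ξ k' - ξ k), ?_, ?_, fun i hi => ?_⟩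
  · rw [norm_smul, norm_inv, inv_mul_le_iff₀ hz0]
    have h3 := norm_sub_le (ξ k') (ξ k)
    have h4 := hξ k
    have h5 := hξ k'
    linarith
  · rw [map_smul, smul_eq_mul, ← hz, inv_mul_cancel₀ (norm_pos_iff.mp hz0)]
  · rw [mul_smul_comm, norm_smul, norm_inv, inv_mul_le_iff₀ hz0]
    refine (hc i hi).trans ?_
    have h6 : 1 / (2 * ((n : ℝ) + 1)) = 1 / 2 * (1 / ((n : ℝ) + 1)) := by
      field_simp
    rw [h6]
    exact mul_le_mul_of_nonneg_right hz1 (by positivity)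

end Blk

/-- Module `bd`: the family `Y k = A × ℂ`, `a (x, s) = (a x + s a, 0)`, `x_k (x, s) = X k x`. -/
theorem exists_famC (X : ℕ → (A →L[ℂ] ℂ)) (hX : ∀ k a, ‖X k a‖ ≤ ‖a‖)
    (h1 : ∀ a, Tendsto (fun k => X k a) atTop (𝓝 0))
    (h2 : ∀ a, Tendsto (fun k => ‖(X k).comp (ContinuousLinearMap.mul ℂ A a)‖) atTop (𝓝 0)) :
    ∃ F : Fam A (fun _ => A × ℂ), (∀ k a z, F.act k a z = (a * z.1 + z.2 • a, (0 : ℂ))) ∧
      ∀ k z, F.x k z = X k z.1 := by
  have hb : ∀ (a : A) (z : A × ℂ), ‖((a * z.1 + z.2 • a, (0 : ℂ)) : A × ℂ)‖ ≤ 2 * ‖a‖ * ‖z‖ := by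
    intro a z
    rw [Prod.norm_def, norm_zero, max_eq_left (norm_nonneg _)]
    have e1 := norm_add_le (a * z.1) (z.2 • a)
    have e2 := norm_mul_le a z.1
    rw [norm_smul] at e1
    have e3 := mul_le_mul_of_nonneg_left (norm_fst_le z) (norm_nonneg a)
    have e4 := mul_le_mul_of_nonneg_right (norm_snd_le z) (norm_nonneg a)
    nlinarith
  let act : A →L[ℂ] (A × ℂ) →L[ℂ] (A × ℂ) := LinearMap.mkContinuous₂
    (LinearMap.mk₂ ℂ (fun (a : A) (z : A × ℂ) => ((a * z.1 + z.2 • a, (0 : ℂ)) : A × ℂ))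
      (fun a b z => by
        refine Prod.ext ?_ ?_
        · show (a + b) * z.1 + z.2 • (a + b) = a * z.1 + z.2 • a + (b * z.1 + z.2 • b)
          rw [add_mul, smul_add]; abel
        · show (0 : ℂ) = 0 + 0
          rw [add_zero])
      (fun c a z => by
        refine Prod.ext ?_ ?_
        · show (c • a) * z.1 + z.2 • (c • a) = c • (a * z.1 + z.2 • a)
          rw [smul_mul_assoc, smul_add, smul_comm]
        · show (0 : ℂ) = c • 0
          rw [smul_zero])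
      (fun a z w => by
        refine Prod.ext ?_ ?_
        · show a * (z.1 + w.1) + (z.2 + w.2) • a = a * z.1 + z.2 • a + (a * w.1 + w.2 • a)
          rw [mul_add, add_smul]; abel
        · show (0 : ℂ) = 0 + 0
          rw [add_zero])
      (fun c a z => by
        refine Prod.ext ?_ ?_
        · show a * (c • z.1) + (c • z.2) • a = c • (a * z.1 + z.2 • a)
          rw [mul_smul_comm, smul_add, smul_assoc]
        · show (0 : ℂ) = c • 0
          rw [smul_zero])) 2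
    (fun a z => by
      rw [LinearMap.mk₂_apply]
      exact hb a z)
  have hact : ∀ a z, act a z = ((a * z.1 + z.2 • a, (0 : ℂ)) : A × ℂ) := fun _ _ => rfl
  refine ⟨{ act := fun _ => act
            act_mul := fun k a b y => ?_
            C := 2
            C_nonneg := zero_le_two
            act_le := fun k a y => hb a y
            x := fun k => (X k).comp (ContinuousLinearMap.fst ℂ A ℂ)
            x_le := fun k y => (hX k y.1).trans (norm_fst_le y)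
            tend := fun a => ?_ }, fun _ _ _ => rfl, fun _ _ => rfl⟩
  · rw [hact, hact, hact]
    refine Prod.ext ?_ rfl
    show a * b * y.1 + y.2 • (a * b) = a * (b * y.1 + y.2 • b) + (0 : ℂ) • a
    rw [zero_smul, add_zero, mul_add, mul_smul_comm, mul_assoc]
  · have e1 := (h2 a).add (h1 a).norm
    rw [norm_zero, add_zero] at e1
    refine squeeze_zero (fun k => ContinuousLinearMap.opNorm_nonneg _) (fun k => ?_) e1
    refine ContinuousLinearMap.opNorm_le_bound _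
      (add_nonneg (ContinuousLinearMap.opNorm_nonneg _) (norm_nonneg _)) fun z => ?_
    show ‖X k (a * z.1 + z.2 • a)‖ ≤ _
    rw [map_add, map_smul, add_mul]
    refine (norm_add_le _ _).trans (add_le_add ?_ ?_)
    · refine (((X k).comp (ContinuousLinearMap.mul ℂ A a)).le_opNorm z.1).trans ?_
      exact mul_le_mul_of_nonneg_left (norm_fst_le z) (ContinuousLinearMap.opNorm_nonneg _)
    · rw [norm_smul, mul_comm]
      exact mul_le_mul_of_nonneg_left (norm_snd_le z) (norm_nonneg _)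

namespace Blk

variable (B : Blk A) [CompleteSpace A]

/-- Module `be` (text 1): the approximate version. -/
theorem exists_approx (hV : Vanish A) : ∃ K : ℝ, 0 ≤ K ∧ ∀ (F : Finset ℕ) (ε : ℝ), 0 < ε →
    ∃ c : A, ‖c‖ ≤ K ∧ ∀ i ∈ F, ‖B.p i - B.p i * c‖ ≤ ε := by
  classical
  obtain ⟨X, ξ, hX, hξ, h1, h2, h3⟩ := B.exists_norming
  choose κ hκ ζ hζ hXζ hpζ using fun n => B.exists_zeta X ξ hX hξ h1 h2 n
  have hκt : Tendsto κ atTop atTop := tendsto_atTop_mono hκ tendsto_id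
  obtain ⟨F', hact, hx⟩ := exists_famC (A := A) (fun n => X (κ n)) (fun k a => hX _ a)
    (fun a => (h2 a).comp hκt) (fun a => (h3 a).comp hκt)
  obtain ⟨D⟩ := exists_fibD F' hV
  refine ⟨8 * D.K, by have := D.K_nonneg; positivity, fun F ε hε => ?_⟩
  obtain ⟨M, hM⟩ : ∃ M : ℕ, ∀ i ∈ F, i ≤ M :=
    ⟨∑ i ∈ F, i, fun i hi => Finset.single_le_sum (f := fun i => i) (fun _ _ => Nat.zero_le _) hi⟩
  obtain ⟨N, hN⟩ := exists_nat_gt (2 * D.K / ε)
  -- the bounded family `(ζ n, 0)`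
  obtain ⟨n, hn, hsm⟩ := D.small ℕ F (fun i => B.p i) (fun _ n => (ζ n, (0 : ℂ))) 8 (by norm_num)
    (fun t k => by
      rw [Prod.norm_def, norm_zero, max_eq_left (norm_nonneg _)]
      exact hζ k) (ε / 2) (by positivity) (max M N)
  have hn1 : M ≤ n := (le_max_left _ _).trans hn
  have hn2 : N ≤ n := (le_max_right _ _).trans hn
  have hone : ‖((0 : A), (1 : ℂ))‖ = 1 := by
    rw [Prod.norm_def, norm_zero, norm_one]
    exact max_eq_right zero_le_one
  refine ⟨D.Ψ n (ζ n) (0, 1), ?_, fun i hi => ?_⟩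
  · refine (D.le n _ _).trans ?_
    rw [hone, mul_one, mul_comm 8]
    exact mul_le_mul_of_nonneg_left (hζ n) D.K_nonneg
  · have h4 := D.two n (B.p i) (ζ n) ((0 : A), (1 : ℂ))
    have e1 : F'.act n (ζ n) ((0 : A), (1 : ℂ)) = (ζ n, (0 : ℂ)) := by
      rw [hact]
      simp
    have e2 : F'.x n (ζ n, (0 : ℂ)) = 1 := by
      rw [hx]
      exact hXζ n
    rw [e1, e2, one_smul] at h4
    have h5 : B.p i - B.p i * D.Ψ n (ζ n) (0, 1) =
        -D.Ψ n (B.p i * ζ n) (0, 1) + D.Ψ n (B.p i) (ζ n, 0) := by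
      rw [sub_eq_iff_eq_add]
      nth_rewrite 1 [h4]
      abel
    rw [h5]
    have h6 : ‖D.Ψ n (B.p i * ζ n) (0, 1)‖ ≤ ε / 2 := by
      refine (D.le n _ _).trans ?_
      rw [hone, mul_one]
      have h7 := hpζ n i ((hM i hi).trans hn1)
      have h8 : D.K * ‖B.p i * ζ n‖ ≤ D.K * (1 / ((n : ℝ) + 1)) :=
        mul_le_mul_of_nonneg_left h7 D.K_nonneg
      refine h8.trans ?_
      rw [mul_one_div, div_le_iff₀ (by positivity)]
      have h9 : (N : ℝ) ≤ n := by exact_mod_cast hn2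
      rw [div_lt_iff₀ hε] at hN
      nlinarith
    have h7 := (hsm i hi).le
    refine (norm_add_le _ _).trans ?_
    rw [norm_neg]
    linarith

/-- Module `bf` (text 1): `c + ∑ i ∈ F, (p_i - p_i c)`. -/
theorem exists_bai (hV : Vanish A) : ∃ K₁ : ℝ, 0 ≤ K₁ ∧ ∀ F : Finset ℕ, ∃ c : A, ‖c‖ ≤ K₁ ∧
    ∀ i ∈ F, B.p i * c = B.p i := by
  obtain ⟨K, hK, h⟩ := B.exists_approx hV
  refine ⟨K + 1, by linarith, fun F => ?_⟩
  obtain ⟨c, hc, hF⟩ := h F (1 / ((F.card : ℝ) + 1)) (by positivity)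
  refine ⟨c + ∑ i ∈ F, (B.p i - B.p i * c), ?_, fun i hi => ?_⟩
  · refine (norm_add_le _ _).trans (add_le_add hc ?_)
    refine (norm_sum_le _ _).trans ?_
    refine (Finset.sum_le_card_nsmul F _ _ hF).trans ?_
    rw [nsmul_eq_mul, mul_one_div, div_le_one (by positivity)]
    linarith
  · rw [mul_add, Finset.mul_sum, Finset.sum_eq_single i]
    · rw [mul_sub, ← mul_assoc, B.p_idem]
      abel
    · intro j _ hj
      rw [mul_sub, ← mul_assoc, B.p_orth i j (fun e => hj e.symm), zero_mul, sub_zero]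
    · intro hn
      exact absurd hi hn

end Blk

end Pool.Agent.FinBlk
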