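import Pool.Agent.FinBlk.Fam

/-!
# Central idempotents with finite-dimensional blocks (T2, text T)
-/

set_option autoImplicit false
set_option linter.unusedSectionVars false

noncomputable section

namespace Pool.Agent.FinBlk

universe u v

open ContinuousLinearMap Filter Topology
open Pool.Agent.MP_a77edb_an Pool.Agent.CptDim

private theorem fbl_ta_eig {V : Type u} [NormedAddCommGroup V] [NormedSpace ℂ V]
    [FiniteDimensional ℂ V] (T : V →L[ℂ] V) (μ : ℂ)
    (h : μ ∈ (LinearMap.charpoly (T : V →ₗ[ℂ] V)).roots) : ‖μ‖ ≤ ‖T‖ := by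
  have h1 : Module.End.HasEigenvalue (T : V →ₗ[ℂ] V) μ :=
    (Module.End.hasEigenvalue_iff_isRoot_charpoly _ _).mpr (Polynomial.isRoot_of_mem_roots h)
  obtain ⟨v, hv⟩ := h1.exists_hasEigenvector
  have h2 : T v = μ • v := hv.apply_eq_smul
  have h3 : 0 < ‖v‖ := norm_pos_iff.mpr hv.2
  have h4 := T.le_opNorm v
  rw [h2, norm_smul] at h4
  exact le_of_mul_le_mul_right h4 h3

private theorem fbl_ta_trace {V : Type u} [NormedAddCommGroup V] [NormedSpace ℂ V]
    [FiniteDimensional ℂ V] (T : V →L[ℂ] V) :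
    ‖LinearMap.trace ℂ V (T : V →ₗ[ℂ] V)‖ ≤ (Module.finrank ℂ V : ℝ) * ‖T‖ := by
  have hs : (LinearMap.charpoly (T : V →ₗ[ℂ] V)).Splits := IsAlgClosed.splits _
  rw [Module.End.trace_eq_sum_roots_charpoly_of_splits hs]
  refine (norm_multiset_sum_le _).trans ?_
  refine (Multiset.sum_le_card_nsmul _ ‖T‖ ?_).trans ?_
  · intro x hx
    obtain ⟨μ, hμ, rfl⟩ := Multiset.mem_map.mp hx
    exact fbl_ta_eig T μ hμ
  · rw [Multiset.card_map, nsmul_eq_mul]
    refine mul_le_mul_of_nonneg_right ?_ (norm_nonneg _)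
    have h1 := Polynomial.card_roots' (LinearMap.charpoly (T : V →ₗ[ℂ] V))
    rw [LinearMap.charpoly_natDegree] at h1
    exact_mod_cast h1

/-- Module `ta`: the normalised trace. The trace is the sum of the eigenvalues
(`LinearMap.trace`, roots of the characteristic polynomial), each of which is at most `‖T‖`. -/
theorem exists_ntr (V : Type u) [NormedAddCommGroup V] [NormedSpace ℂ V] [FiniteDimensional ℂ V]
    [Nontrivial V] : ∃ τ : (V →L[ℂ] V) →L[ℂ] ℂ, (∀ T, ‖τ T‖ ≤ ‖T‖) ∧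
      (∀ S T : V →L[ℂ] V, τ (S.comp T) = τ (T.comp S)) ∧ τ (ContinuousLinearMap.id ℂ V) = 1 := by
  have hn : 0 < Module.finrank ℂ V := Module.finrank_pos
  have hnR : (0 : ℝ) < (Module.finrank ℂ V : ℝ) := by exact_mod_cast hn
  have hnC : (Module.finrank ℂ V : ℂ) ≠ 0 := by exact_mod_cast hn.ne'
  let τ₀ : (V →L[ℂ] V) →ₗ[ℂ] ℂ :=
    { toFun := fun T => (Module.finrank ℂ V : ℂ)⁻¹ * LinearMap.trace ℂ V (T : V →ₗ[ℂ] V)
      map_add' := fun S T => by
        rw [ContinuousLinearMap.toLinearMap_add, map_add, mul_add]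
      map_smul' := fun c T => by
        rw [ContinuousLinearMap.toLinearMap_smul, map_smul, smul_eq_mul, RingHom.id_apply, smul_eq_mul]
        ring }
  have hb : ∀ T, ‖τ₀ T‖ ≤ 1 * ‖T‖ := by
    intro T
    show ‖(Module.finrank ℂ V : ℂ)⁻¹ * LinearMap.trace ℂ V (T : V →ₗ[ℂ] V)‖ ≤ 1 * ‖T‖
    rw [norm_mul, norm_inv, Complex.norm_natCast, one_mul, inv_mul_le_iff₀ hnR]
    exact fbl_ta_trace T
  refine ⟨τ₀.mkContinuous 1 hb, fun T => ?_, fun S T => ?_, ?_⟩
  · have := hb T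
    rw [one_mul] at this
    exact this
  · show (Module.finrank ℂ V : ℂ)⁻¹ * LinearMap.trace ℂ V ((S : V →ₗ[ℂ] V) * (T : V →ₗ[ℂ] V))
      = (Module.finrank ℂ V : ℂ)⁻¹ * LinearMap.trace ℂ V ((T : V →ₗ[ℂ] V) * (S : V →ₗ[ℂ] V))
    rw [LinearMap.trace_mul_comm]
  · show (Module.finrank ℂ V : ℂ)⁻¹ * LinearMap.trace ℂ V LinearMap.id = 1
    rw [LinearMap.trace_id, inv_mul_cancel₀ hnC]

variable {A : Type u} [NonUnitalNormedRing A] [NormedSpace ℂ A] [IsScalarTower ℂ A A]
  [SMulCommClass ℂ A A]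

/-- The block `{x : p x = x}` of `p`. -/
def vp (p : A) : Submodule ℂ A where
  carrier := {x | p * x = x}
  add_mem' := fun {a b} ha hb => by
    show p * (a + b) = a + b
    rw [mul_add, ha, hb]
  zero_mem' := mul_zero p
  smul_mem' := fun c x hx => by
    show p * (c • x) = c • x
    rw [mul_smul_comm, hx]

theorem mem_vp {p x : A} : x ∈ vp p ↔ p * x = x := Iff.rfl

variable (A) in
/-- Orthogonal central idempotents with finite-dimensional blocks. -/
structure Blk0 where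
  /-- the idempotents -/
  p : ℕ → A
  p_ne : ∀ k, p k ≠ 0
  p_idem : ∀ k, p k * p k = p k
  p_comm : ∀ k a, p k * a = a * p k
  p_orth : ∀ k l, k ≠ l → p k * p l = 0
  fin : ∀ k, FiniteDimensional ℂ (vp (p k))

namespace Blk0

variable (B : Blk0 A)

/-- The block. -/
abbrev V (k : ℕ) : Type u := vp (B.p k)

instance instFin (k : ℕ) : FiniteDimensional ℂ (B.V k) := B.fin k

instance instCompl (k : ℕ) : CompleteSpace (B.V k) := FiniteDimensional.complete ℂ _

instance instNontriv (k : ℕ) : Nontrivial (B.V k) :=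
  ⟨⟨⟨B.p k, B.p_idem k⟩, 0, fun h => B.p_ne k (congrArg Subtype.val h)⟩⟩

theorem mul_mem (k : ℕ) (a : A) (x : B.V k) : a * (x : A) ∈ vp (B.p k) := by
  show B.p k * (a * (x : A)) = a * (x : A)
  rw [← mul_assoc, B.p_comm, mul_assoc, x.2]

/-- The representation on the block. -/
def pi (k : ℕ) : A →L[ℂ] B.V k →L[ℂ] B.V k :=
  LinearMap.mkContinuous₂
    (LinearMap.mk₂ ℂ (fun a x => (⟨a * (x : A), B.mul_mem k a x⟩ : B.V k))
      (fun a b x => Subtype.ext (add_mul a b (x : A)))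
      (fun c a x => Subtype.ext (smul_mul_assoc c a (x : A)))
      (fun a x y => Subtype.ext (mul_add a (x : A) (y : A)))
      (fun c a x => Subtype.ext (mul_smul_comm c a (x : A)))) 1
    (fun a x => by
      rw [LinearMap.mk₂_apply, one_mul]
      exact norm_mul_le a (x : A))

theorem coe_pi (k : ℕ) (a : A) (x : B.V k) : ((B.pi k a x : B.V k) : A) = a * (x : A) := rfl

theorem pi_mul (k : ℕ) (a b : A) : B.pi k (a * b) = (B.pi k a).comp (B.pi k b) :=
  ContinuousLinearMap.ext fun x => Subtype.ext (mul_assoc a b (x : A))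

/-- Module `tb`. -/
theorem norm_pi_le (k : ℕ) (a : A) : ‖B.pi k a‖ ≤ ‖a‖ :=
  ContinuousLinearMap.opNorm_le_bound _ (norm_nonneg a) fun x => norm_mul_le a (x : A)

/-- Module `tb`. -/
theorem pi_p_mul (k : ℕ) (a : A) : B.pi k (B.p k * a) = B.pi k a := by
  refine ContinuousLinearMap.ext fun x => Subtype.ext ?_
  rw [coe_pi, coe_pi, mul_assoc]
  exact B.mul_mem k a x

/-- Module `tb`. -/
theorem pi_p (k : ℕ) : B.pi k (B.p k) = ContinuousLinearMap.id ℂ (B.V k) :=
  ContinuousLinearMap.ext fun x => Subtype.ext x.2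

/-- Module `tb`. -/
theorem pi_eq_zero {k : ℕ} {a : A} (h : B.p k * a = 0) : B.pi k a = 0 := by
  rw [← B.pi_p_mul k a, h, map_zero]

/-- Module `tb`. -/
theorem pi_p_mul_ne {k l : ℕ} (h : k ≠ l) (a : A) : B.pi k (B.p l * a) = 0 := by
  refine B.pi_eq_zero ?_
  rw [← mul_assoc, B.p_orth k l h, zero_mul]

/-- The normalised trace on the operators of the block. -/
def tau (k : ℕ) : (B.V k →L[ℂ] B.V k) →L[ℂ] ℂ := (exists_ntr (B.V k)).choose

theorem norm_tau_le (k : ℕ) (T : B.V k →L[ℂ] B.V k) : ‖B.tau k T‖ ≤ ‖T‖ :=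
  (exists_ntr (B.V k)).choose_spec.1 T

theorem tau_comm (k : ℕ) (S T : B.V k →L[ℂ] B.V k) : B.tau k (S.comp T) = B.tau k (T.comp S) :=
  (exists_ntr (B.V k)).choose_spec.2.1 S T

theorem tau_id (k : ℕ) : B.tau k (ContinuousLinearMap.id ℂ (B.V k)) = 1 :=
  (exists_ntr (B.V k)).choose_spec.2.2

/-- The trace `t_k`. -/
def t (k : ℕ) : A →L[ℂ] ℂ := (B.tau k).comp (B.pi k)

theorem t_apply (k : ℕ) (a : A) : B.t k a = B.tau k (B.pi k a) := rfl

/-- Module `td`. -/
theorem norm_t_le (k : ℕ) (a : A) : ‖B.t k a‖ ≤ ‖a‖ :=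
  (B.norm_tau_le k _).trans (B.norm_pi_le k a)

/-- Module `td`. -/
theorem t_comm (k : ℕ) (a b : A) : B.t k (a * b) = B.t k (b * a) := by
  rw [t_apply, t_apply, pi_mul, pi_mul, tau_comm]

/-- Module `td`. -/
theorem t_p_mul (k : ℕ) (a : A) : B.t k (B.p k * a) = B.t k a := by
  rw [t_apply, t_apply, pi_p_mul]

/-- Module `td`. -/
theorem t_p (k : ℕ) : B.t k (B.p k) = 1 := by
  rw [t_apply, pi_p, tau_id]

/-- Module `td`. -/
theorem t_p_mul_ne {k l : ℕ} (h : k ≠ l) (a : A) : B.t k (B.p l * a) = 0 := by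
  rw [t_apply, pi_p_mul_ne B h, map_zero]

/-- The modules `B(V_k)`. -/
abbrev Y (k : ℕ) : Type u := B.V k →L[ℂ] B.V k

end Blk0

variable (A) in
/-- Moreover the elements which live on finitely many blocks are dense. -/
structure Blk extends Blk0 A where
  dense : ∀ (a : A) (ε : ℝ), 0 < ε → ∃ b, ‖a - b‖ < ε ∧ ∃ k₀, ∀ k, k₀ ≤ k → p k * b = 0

variable (A) in
/-- Moreover the elements which are scalar on all but finitely many blocks are dense. -/
structure BlkS extends Blk0 A where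
  dense : ∀ (a : A) (ε : ℝ), 0 < ε → ∃ b, ‖a - b‖ < ε ∧ ∃ (t : ℂ) (k₀ : ℕ), ∀ k, k₀ ≤ k →
    p k * b = t • p k

namespace Blk

variable (B : Blk A)

/-- Module `tc`: density. -/
theorem tend_pi (a : A) : Tendsto (fun k => ‖B.pi k a‖) atTop (𝓝 0) := by
  rw [Metric.tendsto_atTop]
  intro ε hε
  obtain ⟨b, hb, k₀, hk⟩ := B.dense a ε hε
  refine ⟨k₀, fun k hkk => ?_⟩
  rw [dist_zero_right, Real.norm_of_nonneg (ContinuousLinearMap.opNorm_nonneg _)]
  have h1 : B.pi k a = B.pi k (a - b) := by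
    rw [map_sub, B.pi_eq_zero (hk k hkk), sub_zero]
  rw [h1]
  exact (B.norm_pi_le k _).trans_lt hb

/-- Module `tc`. -/
theorem tend_t (a : A) : Tendsto (fun k => B.t k a) atTop (𝓝 0) :=
  squeeze_zero_norm (fun k => B.norm_tau_le k _) (B.tend_pi a)

/-- Module `te`: the family `Y k = B(V k)`, `a T = π_k(a) ∘ T`, `x_k = τ_k`. -/
theorem exists_fam : ∃ F : Fam A B.Y, (∀ k a (T : B.Y k), F.act k a T = (B.pi k a).comp T) ∧
    ∀ k (T : B.Y k), F.x k T = B.tau k T :=
  ⟨{ act := fun k => (compL ℂ (B.V k) (B.V k) (B.V k)).comp (B.pi k)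
     act_mul := fun k a b y => by
       show (B.pi k (a * b)).comp y = (B.pi k a).comp ((B.pi k b).comp y)
       rw [B.pi_mul, ContinuousLinearMap.comp_assoc]
     C := 1
     C_nonneg := zero_le_one
     act_le := fun k a y => by
       show ‖(B.pi k a).comp y‖ ≤ 1 * ‖a‖ * ‖y‖
       rw [one_mul]
       exact (ContinuousLinearMap.opNorm_comp_le _ _).trans
         (mul_le_mul_of_nonneg_right (B.norm_pi_le k a) (norm_nonneg y))
     x := B.tau
     x_le := B.norm_tau_le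
     tend := fun a => by
       refine squeeze_zero (fun k => ContinuousLinearMap.opNorm_nonneg _) (fun k => ?_) (B.tend_pi a)
       refine ContinuousLinearMap.opNorm_le_bound _ (ContinuousLinearMap.opNorm_nonneg _) fun T => ?_
       show ‖B.tau k ((B.pi k a).comp T)‖ ≤ ‖B.pi k a‖ * ‖T‖
       exact (B.norm_tau_le k _).trans (ContinuousLinearMap.opNorm_comp_le _ _) },
    fun _ _ _ => rfl, fun _ _ => rfl⟩

end Blk

end Pool.Agent.FinBlk
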