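import Pool.Agent.CptDim.Fib
import Pool.Agent.CptDim.Cmb

/-!
# Sequences of left modules with functionals, and the fibres of `ψ` (T2, text G)

`Fam A Y`: a sequence of left modules `Y k` with functionals `x k` such that `x k (a ·) → 0`.
`FibD F`: what the vanishing condition gives (text (G1) - (G5)).
-/

set_option autoImplicit false
set_option linter.unusedSectionVars false

noncomputable section

namespace Pool.Agent.FinBlk

universe u v

open ContinuousLinearMap Filter Topology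
open Pool.Agent.MP_a77edb_an Pool.Agent.CptDim
open scoped ENNReal

/-- A sequence of left modules with functionals. -/
structure Fam (A : Type u) [NonUnitalNormedRing A] [NormedSpace ℂ A] (Y : ℕ → Type u)
    [∀ k, NormedAddCommGroup (Y k)] [∀ k, NormedSpace ℂ (Y k)] where
  /-- the actions -/
  act : ∀ k, A →L[ℂ] Y k →L[ℂ] Y k
  act_mul : ∀ k a b y, act k (a * b) y = act k a (act k b y)
  /-- a bound -/
  C : ℝ
  C_nonneg : 0 ≤ C
  act_le : ∀ k a y, ‖act k a y‖ ≤ C * ‖a‖ * ‖y‖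
  /-- the functionals -/
  x : ∀ k, Y k →L[ℂ] ℂ
  x_le : ∀ k y, ‖x k y‖ ≤ ‖y‖
  tend : ∀ a, Tendsto (fun k => ‖(x k).comp (act k a)‖) atTop (𝓝 0)

variable {A : Type u} [NonUnitalNormedRing A] [NormedSpace ℂ A] {Y : ℕ → Type u}
  [∀ k, NormedAddCommGroup (Y k)] [∀ k, NormedSpace ℂ (Y k)]

/-- What the vanishing condition gives for a family. -/
structure FibD (F : Fam A Y) where
  /-- the fibres of `ψ` -/
  Ψ : ∀ k, A →L[ℂ] Y k →L[ℂ] A
  /-- a bound -/
  K : ℝ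
  K_nonneg : 0 ≤ K
  le : ∀ k a y, ‖Ψ k a y‖ ≤ K * ‖a‖ * ‖y‖
  two : ∀ k a b y, (F.x k (F.act k b y)) • a =
    a * Ψ k b y - Ψ k (a * b) y + Ψ k a (F.act k b y)
  small : ∀ (ι : Type) (T : Finset ι) (a : ι → A) (y : ι → ∀ k, Y k) (M : ℝ), 0 ≤ M →
    (∀ t k, ‖y t k‖ ≤ M) → ∀ ε : ℝ, 0 < ε → ∀ n₀ : ℕ,
    ∃ n, n₀ ≤ n ∧ ∀ t ∈ T, ‖Ψ n (a t) (y t n)‖ < ε
  bone : ∀ (J : Finset ℕ) (κ : ℕ → ℕ), Set.InjOn κ J → ∀ (y : ∀ k, Y k) (R : ℝ), 0 ≤ R →
    (∀ k, ‖y k‖ ≤ R) → ∀ (G : ℕ → (A →L[ℂ] ℂ)) (w : ℝ), 0 ≤ w →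
    (∀ a, ∑ j ∈ J, ‖G j a‖ ≤ w * ‖a‖) → ∀ a,
    ‖∑ j ∈ J, G j (Ψ (κ j) a (y (κ j)))‖ ≤ K * ‖a‖ * R * w

/-! ### The modules -/

/-- The index set of the families of scalars. -/
abbrev NU : Type u := ULift.{u} ℕ

instance : Preorder NU.{u} := Preorder.lift ULift.down

theorem NU_le (m n : NU.{u}) : m ≤ n ↔ m.down ≤ n.down := Iff.rfl

instance : IsDirectedOrder NU.{u} :=
  ⟨fun p q => ⟨⟨max p.down q.down⟩, le_max_left p.down q.down, le_max_right p.down q.down⟩⟩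

instance : Nonempty NU.{u} := ⟨⟨0⟩⟩

/-- Module `fa`. -/
theorem tendsto_NU {β : Type v} {l : Filter β} (f : ℕ → β) :
    Tendsto (fun n : NU.{u} => f n.down) atTop l ↔ Tendsto f atTop l := by
  have h1 : Tendsto (ULift.down : NU.{u} → ℕ) atTop atTop := by
    rw [tendsto_atTop]
    intro b
    filter_upwards [eventually_ge_atTop (⟨b⟩ : NU.{u})] with n hn
    exact hn
  have h2 : Tendsto (ULift.up : ℕ → NU.{u}) atTop atTop := by
    rw [tendsto_atTop]
    intro b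
    filter_upwards [eventually_ge_atTop b.down] with n hn
    exact hn
  exact ⟨fun h => h.comp h2, fun h => h.comp h1⟩

variable (Y) in
/-- Bounded sequences. -/
abbrev LY : Type u := lp (fun k => Y k) ⊤

section Short

instance instL1 : NormedAddCommGroup (LY Y) := inferInstance
instance instL2 : NormedSpace ℂ (LY Y) := inferInstance
instance instL3 : SeminormedAddCommGroup (LY Y) := inferInstance
instance instL4 : AddCommMonoid (LY Y) := inferInstance
instance instL5 : Module ℂ (LY Y) := inferInstance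
instance instL6 : TopologicalSpace (LY Y) := inferInstance
instance instL7 : AddCommGroup (LY Y) := inferInstance
instance instN1 : NormedAddCommGroup (Z0 NU.{u}) := inferInstance
instance instN2 : NormedSpace ℂ (Z0 NU.{u}) := inferInstance
instance instN3 : SeminormedAddCommGroup (Z0 NU.{u}) := inferInstance
instance instN4 : AddCommMonoid (Z0 NU.{u}) := inferInstance
instance instN5 : Module ℂ (Z0 NU.{u}) := inferInstance
instance instN6 : TopologicalSpace (Z0 NU.{u}) := inferInstance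
instance instN7 : AddCommGroup (Z0 NU.{u}) := inferInstance

variable (A) in
/-- The target of `ψ`. -/
abbrev TN : Type u := PT A (Z0 NU.{u})

instance instT1 : NormedAddCommGroup (TN A) := inferInstance
instance instT2 : NormedSpace ℂ (TN A) := inferInstance
instance instT3 : SeminormedAddCommGroup (TN A) := inferInstance
instance instT4 : AddCommMonoid (TN A) := inferInstance
instance instT5 : Module ℂ (TN A) := inferInstance
instance instT6 : TopologicalSpace (TN A) := inferInstance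
instance instT7 : AddCommGroup (TN A) := inferInstance

end Short

theorem LY_apply_le (f : LY Y) (k : ℕ) : ‖f k‖ ≤ ‖f‖ := lp.norm_apply_le_norm (by simp) f k

namespace Fam

variable (F : Fam A Y)

private theorem fbl_fb_bound (a : A) (m : LY Y) (k : ℕ) :
    ‖F.act k a (m k)‖ ≤ F.C * ‖a‖ * ‖m‖ :=
  (F.act_le k a (m k)).trans (mul_le_mul_of_nonneg_left (LY_apply_le m k)
    (mul_nonneg F.C_nonneg (norm_nonneg a)))

private def fbl_fb_fun (a : A) (m : LY Y) : LY Y :=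
  ⟨fun k => F.act k a (m k), memℓp_infty ⟨F.C * ‖a‖ * ‖m‖, by
    rintro _ ⟨k, rfl⟩
    exact F.fbl_fb_bound a m k⟩⟩

private theorem fbl_fb_apply (a : A) (m : LY Y) (k : ℕ) :
    F.fbl_fb_fun a m k = F.act k a (m k) := rfl

private theorem fbl_fb_ext {x y : LY Y} (h : ∀ k, x k = y k) : x = y := lp.ext (funext h)

private theorem fbl_fb_add (x y : LY Y) (k : ℕ) : (x + y) k = x k + y k := rfl

private theorem fbl_fb_smul (c : ℂ) (x : LY Y) (k : ℕ) : (c • x) k = c • x k := rfl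

/-- Module `fb`: the pointwise action on bounded sequences (see `CMod.lean`, `lam`). -/
theorem exists_lact :
    ∃ L : A →L[ℂ] LY Y →L[ℂ] LY Y, ∀ a m k, (L a m : LY Y) k = F.act k a (m k) := by
  refine ⟨LinearMap.mkContinuous₂
    (LinearMap.mk₂ ℂ F.fbl_fb_fun
      (fun a b x => fbl_fb_ext fun k => by
        rw [fbl_fb_add, fbl_fb_apply, fbl_fb_apply, fbl_fb_apply, map_add, add_apply])
      (fun c a x => fbl_fb_ext fun k => by
        rw [fbl_fb_smul, fbl_fb_apply, fbl_fb_apply, map_smul, smul_apply])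
      (fun a x y => fbl_fb_ext fun k => by
        rw [fbl_fb_add, fbl_fb_apply, fbl_fb_apply, fbl_fb_apply, fbl_fb_add, map_add])
      (fun c a x => fbl_fb_ext fun k => by
        rw [fbl_fb_smul, fbl_fb_apply, fbl_fb_apply, fbl_fb_smul, map_smul])) F.C
    (fun a m => by
      rw [LinearMap.mk₂_apply]
      refine lp.norm_le_of_forall_le
        (mul_nonneg (mul_nonneg F.C_nonneg (norm_nonneg a)) (norm_nonneg m)) fun k => ?_
      exact F.fbl_fb_bound a m k), fun a m k => rfl⟩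

private theorem fbl_fc_bound (a : A) (m : LY Y) (k : NU.{u}) :
    ‖F.x k.down (F.act k.down a (m k.down))‖ ≤ F.C * ‖a‖ * ‖m‖ :=
  (F.x_le k.down _).trans (F.fbl_fb_bound a m k.down)

private theorem fbl_fc_tendsto (a : A) (m : LY Y) :
    Tendsto (fun k : NU.{u} => F.x k.down (F.act k.down a (m k.down))) atTop (𝓝 0) := by
  refine (tendsto_NU (fun k => F.x k (F.act k a (m k)))).2 ?_
  have h := (F.tend a).mul_const ‖m‖
  rw [zero_mul] at h
  refine squeeze_zero_norm (fun k => ?_) h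
  exact (ContinuousLinearMap.le_opNorm ((F.x k).comp (F.act k a)) (m k)).trans
    (mul_le_mul_of_nonneg_left (LY_apply_le m k) (norm_nonneg _))

private def fbl_fc_fun (a : A) (m : LY Y) : Z0 NU.{u} :=
  mkZ0 (fun k => F.x k.down (F.act k.down a (m k.down))) (linf_mem (F.fbl_fc_bound a m))
    (F.fbl_fc_tendsto a m)

private theorem fbl_fc_apply (a : A) (m : LY Y) (k : NU.{u}) :
    ev k (F.fbl_fc_fun a m) = F.x k.down (F.act k.down a (m k.down)) := rfl

/-- Module `fc`: the 1-cocycle (see `CptDim/ADef.lean`, `coc`; `F.tend`). -/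
theorem exists_coc : ∃ D : A →L[ℂ] LY Y →L[ℂ] Z0 NU.{u},
    ∀ a m k, ev k (D a m) = F.x k.down (F.act k.down a (m k.down)) := by
  refine ⟨LinearMap.mkContinuous₂
    (LinearMap.mk₂ ℂ F.fbl_fc_fun
      (fun a b m => Z0_ext fun p => by
        rw [map_add, fbl_fc_apply, fbl_fc_apply, fbl_fc_apply, map_add, add_apply, map_add])
      (fun t a m => Z0_ext fun p => by
        rw [map_smul, fbl_fc_apply, fbl_fc_apply, map_smul, smul_apply, map_smul])
      (fun a x y => Z0_ext fun p => by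
        rw [map_add, fbl_fc_apply, fbl_fc_apply, fbl_fc_apply, fbl_fb_add, map_add, map_add])
      (fun t a x => Z0_ext fun p => by
        rw [map_smul, fbl_fc_apply, fbl_fc_apply, fbl_fb_smul, map_smul, map_smul]))
    F.C
    (fun a x => by
      rw [LinearMap.mk₂_apply]
      exact norm_Z0_le (mul_nonneg (mul_nonneg F.C_nonneg (norm_nonneg a)) (norm_nonneg x))
        (F.fbl_fc_bound a x)), fun a m k => rfl⟩

variable [CompleteSpace A] [IsScalarTower ℂ A A] [SMulCommClass ℂ A A]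
  [∀ k, CompleteSpace (Y k)]

/-- Module `fd`: the consequence of the vanishing condition. `X = LY Y`, `N = Z0 NU` with the zero
action, `W = A ⊗ N` with the left action `CS.lact`, `D₂ = PT.tmul`. -/
theorem exists_psi (hV : Vanish A) : ∃ ψ : A →L[ℂ] LY Y →L[ℂ] TN A,
    ∀ (a b : A) (m : LY Y) (n : Z0 NU.{u}) (bm : LY Y),
      (∀ k, ev k n = F.x k.down (F.act k.down b (m k.down))) →
      (∀ k, bm k = F.act k b (m k)) →
      (PT.tmul a n : TN A) = CS.lact a (ψ b m) - ψ (a * b) m + ψ a bm := by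
  obtain ⟨L, hL⟩ := F.exists_lact
  obtain ⟨D, hD⟩ := F.exists_coc
  let X : LeftMod A :=
    { carrier := LY Y
      act := L
      act_mul := fun a b m => fbl_fb_ext fun k => by
        rw [hL, hL, hL, F.act_mul] }
  let N : LeftMod A :=
    { carrier := Z0 NU.{u}
      act := 0
      act_mul := fun a b m => rfl }
  let W : LeftMod A :=
    { carrier := TN A
      act := CS.lact
      act_mul := fun a b t => CS.lact_mul a b t }
  let D₂ : A →L[ℂ] Z0 NU.{u} →L[ℂ] TN A := PT.tmul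
  have hD₁ : ∀ a b m, D (a * b) m = (0 : Z0 NU.{u}) + D a (L b m) := fun a b m => by
    refine Z0_ext fun k => ?_
    rw [zero_add, hD, hD, hL, F.act_mul]
  have hD₂ : ∀ a b n, D₂ (a * b) n = CS.lact a (D₂ b n) + D₂ a 0 := fun a b n => by
    have h0 : D₂ a 0 = 0 := ContinuousLinearMap.map_zero (D₂ a)
    rw [h0, add_zero]
    exact (CS.lact_tmul a b n).symm
  obtain ⟨ψ, hψ⟩ := hV X N W D D₂ hD₁ hD₂
  refine ⟨ψ, fun a b m n bm hn hbm => ?_⟩
  have e1 : n = D b m := Z0_ext fun k => (hn k).trans (hD b m k).symm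
  have e2 : bm = L b m := fbl_fb_ext fun k => (hbm k).trans (hL b m k).symm
  rw [e1, e2]
  exact hψ a b m

end Fam

open Classical in
/-- Sequences concentrated at one index. -/
def sgl (k : ℕ) : Y k →L[ℂ] LY Y := lp.singleContinuousLinearMap ℂ (fun k => Y k) ⊤ k

theorem sgl_apply_self (k : ℕ) (v : Y k) : sgl k v k = v := by
  classical
  exact lp.single_apply_self (E := fun k => Y k) ⊤ k v

theorem sgl_apply_ne {k k' : ℕ} (h : k' ≠ k) (v : Y k) : sgl k v k' = 0 := by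
  classical
  exact lp.single_apply_ne (E := fun k => Y k) ⊤ k v h

variable [CompleteSpace A] [IsScalarTower ℂ A A] [SMulCommClass ℂ A A]

/-- The fibre of `ψ`. -/
def fib (ψ : A →L[ℂ] LY Y →L[ℂ] TN A) (k : ℕ) : A →L[ℂ] Y k →L[ℂ] A :=
  (compL ℂ (Y k) (TN A) A (PT.slice (ev ⟨k⟩))).comp
    (((compL ℂ (Y k) (LY Y) (TN A)).flip (sgl k)).comp ψ)

theorem fib_apply (ψ : A →L[ℂ] LY Y →L[ℂ] TN A) (k : ℕ) (a : A) (y : Y k) :
    fib ψ k a y = PT.slice (ev ⟨k⟩) (ψ a (sgl k y)) := rfl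

private theorem fbl_fe_norm_slice (n : NU.{u}) (T : TN A) : ‖PT.slice (ev n) T‖ ≤ ‖T‖ :=
  (PT.norm_slice_apply_le _ _).trans (mul_le_of_le_one_left (norm_nonneg _) (norm_ev_le n))

private theorem fbl_fe_norm_sgl (k : ℕ) (y : Y k) : ‖sgl k y‖ ≤ ‖y‖ := by
  classical
  refine lp.norm_le_of_forall_le (norm_nonneg _) fun k' => ?_
  by_cases h : k' = k
  · subst h
    rw [sgl_apply_self]
  · rw [sgl_apply_ne h, norm_zero]
    exact norm_nonneg _

/-- Module `fe`. -/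
theorem norm_fib_le (ψ : A →L[ℂ] LY Y →L[ℂ] TN A) (k : ℕ) (a : A) (y : Y k) :
    ‖fib ψ k a y‖ ≤ ‖ψ‖ * ‖a‖ * ‖y‖ := by
  rw [fib_apply]
  refine (fbl_fe_norm_slice _ _).trans ((ψ.le_opNorm₂ _ _).trans ?_)
  have h0 : 0 ≤ ‖ψ‖ := ContinuousLinearMap.opNorm_nonneg ψ
  exact mul_le_mul_of_nonneg_left (fbl_fe_norm_sgl k y) (by positivity)

/-- Module `fe`: `PT.slice (ev ⟨k⟩)` of the identity of `exists_psi` at `m = sgl k y`
(`slice_lact'` of `CptDim/Fib.lean`). -/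
theorem fib_two (F : Fam A Y) (ψ : A →L[ℂ] LY Y →L[ℂ] TN A)
    (hψ : ∀ (a b : A) (m : LY Y) (n : Z0 NU.{u}) (bm : LY Y),
      (∀ k, ev k n = F.x k.down (F.act k.down b (m k.down))) →
      (∀ k, bm k = F.act k b (m k)) →
      (PT.tmul a n : TN A) = CS.lact a (ψ b m) - ψ (a * b) m + ψ a bm) (k : ℕ) (a b : A) (y : Y k) :
    (F.x k (F.act k b y)) • a =
      a * fib ψ k b y - fib ψ k (a * b) y + fib ψ k a (F.act k b y) := by
  obtain ⟨D, hD⟩ := F.exists_coc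
  have h1 := hψ a b (sgl k y) (D b (sgl k y)) (sgl k (F.act k b y)) (fun k' => hD b _ k')
    (fun k' => by
      by_cases h : k' = k
      · subst h
        rw [sgl_apply_self, sgl_apply_self]
      · rw [sgl_apply_ne h, sgl_apply_ne h, map_zero])
  have h2 := congrArg (PT.slice (ev ⟨k⟩)) h1
  have h3 : ∀ (R : TN A →L[ℂ] A) (u v w : TN A), R (u - v + w) = R u - R v + R w :=
    fun R u v w => by rw [map_add, map_sub]
  rw [PT.slice_tmul, hD, sgl_apply_self, h3, slice_lact'] at h2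
  exact h2

/-- Module `ff`: the map `c ↦ (c_k y_k)`. -/
theorem exists_B (y : ∀ k, Y k) {M : ℝ} (hM : 0 ≤ M) (hy : ∀ k, ‖y k‖ ≤ M) :
    ∃ B : LC ℕ →L[ℂ] LY Y, (∀ c, ‖B c‖ ≤ M * ‖c‖) ∧ (∀ c k, B c k = c k • y k) ∧
      (∀ k, B (indLC {k}) = sgl k (y k)) := by
  classical
  have hb : ∀ (c : LC ℕ) (k : ℕ), ‖(c k • y k : Y k)‖ ≤ M * ‖c‖ := fun c k => by
    rw [norm_smul, mul_comm]
    exact mul_le_mul (hy _) (lc_apply_le c _) (norm_nonneg _) hM
  have hmem : ∀ c : LC ℕ, Memℓp (fun k => (c k • y k : Y k)) ⊤ := fun c =>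
    memℓp_infty ⟨M * ‖c‖, by
      rintro _ ⟨k, rfl⟩
      exact hb c k⟩
  let L : LC ℕ →ₗ[ℂ] LY Y :=
    { toFun := fun c => ⟨fun k => c k • y k, hmem c⟩
      map_add' := fun c c' => lp.ext (funext fun k => add_smul _ _ _)
      map_smul' := fun t c => lp.ext (funext fun k => mul_smul _ _ _) }
  have hL : ∀ c, ‖L c‖ ≤ M * ‖c‖ := fun c =>
    lp.norm_le_of_forall_le (by positivity) (hb c)
  refine ⟨L.mkContinuous M hL, hL, fun c k => rfl, fun k => ?_⟩
  refine lp.ext (funext fun k' => ?_)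
  show ((indLC {k} : LC ℕ) k') • y k' = sgl k (y k) k'
  by_cases h : k' = k
  · subst h
    rw [sgl_apply_self, indLC_apply, if_pos (Set.mem_singleton _), one_smul]
  · rw [sgl_apply_ne h, indLC_apply, if_neg (fun h' => h (Set.mem_singleton_iff.1 h')), zero_smul]

/-- Module `ff`: the Rosenthal argument on `ℕ` (see `CptDim/Ros.lean`, `small`; `rosenthal` with
`Nat.pair`). -/
theorem fib_small (ψ : A →L[ℂ] LY Y →L[ℂ] TN A) (ι : Type) (T : Finset ι) (a : ι → A)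
    (y : ι → ∀ k, Y k) (M : ℝ) (hM : 0 ≤ M) (hy : ∀ t k, ‖y t k‖ ≤ M) (ε : ℝ) (hε : 0 < ε)
    (n₀ : ℕ) : ∃ n, n₀ ≤ n ∧ ∀ t ∈ T, ‖fib ψ n (a t) (y t n)‖ < ε := by
  classical
  by_contra hcon
  push Not at hcon
  obtain ⟨t₀, ht₀, -⟩ := hcon n₀ le_rfl
  choose B hB1 hB0 hB2 using fun t => exists_B (y t) hM (hy t)
  -- the choice of `t`
  have hj : ∀ n, ∃ j, n₀ ≤ n → j ∈ T ∧ ε ≤ ‖fib ψ n (a j) (y j n)‖ := by
    intro n
    by_cases h : n₀ ≤ n
    · obtain ⟨j, h1, h2⟩ := hcon n h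
      exact ⟨j, fun _ => ⟨h1, h2⟩⟩
    · exact ⟨t₀, fun h' => absurd h' h⟩
  choose j hj using hj
  have hh : ∀ n, ∃ h : A →L[ℂ] ℂ, ‖h‖ ≤ 1 ∧ h (fib ψ n (a (j n)) (y (j n) n)) =
      ((‖fib ψ n (a (j n)) (y (j n) n)‖ : ℝ) : ℂ) := fun n => by
    obtain ⟨h, h1, h2⟩ := exists_dual_vector'' ℂ (fib ψ n (a (j n)) (y (j n) n))
    exact ⟨h, h1, h2⟩
  choose h hh1 hh2 using hh
  have hψ0 : 0 ≤ ‖ψ‖ := ContinuousLinearMap.opNorm_nonneg ψ
  let L : ℕ → (LC ℕ →L[ℂ] ℂ) := fun n =>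
    (h n).comp ((PT.slice (ev ⟨n⟩)).comp ((ψ (a (j n))).comp (B (j n))))
  have hL : ∀ n c, L n c = h n (PT.slice (ev ⟨n⟩) (ψ (a (j n)) (B (j n) c))) :=
    fun n c => rfl
  have hLle : ∀ n c, ‖L n c‖ ≤ ‖PT.slice (ev ⟨n⟩) (ψ (a (j n)) (B (j n) c))‖ := fun n c => by
    rw [hL]
    exact ((h n).le_opNorm _).trans (mul_le_of_le_one_left (norm_nonneg _) (hh1 n))
  -- a bound for the norms of `a t`
  obtain ⟨K, hK0, hK⟩ : ∃ K : ℝ, 0 ≤ K ∧ ∀ t ∈ T, ‖a t‖ ≤ K :=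
    ⟨∑ t ∈ T, ‖a t‖, Finset.sum_nonneg fun _ _ => norm_nonneg _, fun t ht =>
      Finset.single_le_sum (f := fun t => ‖a t‖) (fun _ _ => norm_nonneg _) ht⟩
  have hLn : ∀ n, n₀ ≤ n → ‖L n‖ ≤ ‖ψ‖ * K * M := by
    intro n hn
    refine ContinuousLinearMap.opNorm_le_bound _ (by positivity) fun c => ?_
    refine (hLle n c).trans ?_
    refine (fbl_fe_norm_slice _ _).trans ?_
    refine (ψ.le_opNorm₂ _ _).trans ?_
    have h1 : ‖B (j n) c‖ ≤ M * ‖c‖ := hB1 _ c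
    have h2 := hK (j n) (hj n hn).1
    calc ‖ψ‖ * ‖a (j n)‖ * ‖B (j n) c‖ ≤ ‖ψ‖ * K * (M * ‖c‖) := by gcongr
      _ = _ := by ring
  -- we use only the indices above `n₀`
  let L' : ℕ → (LC ℕ →L[ℂ] ℂ) := fun n => if n₀ ≤ n then L n else 0
  have hL'n : ∀ n, ‖L' n‖ ≤ ‖ψ‖ * K * M := by
    intro n
    by_cases hn : n₀ ≤ n
    · have : L' n = L n := if_pos hn
      rw [this]
      exact hLn n hn
    · have : L' n = 0 := if_neg hn
      rw [this, norm_zero]
      positivity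
  obtain ⟨S, hS, hSμ⟩ := rosenthal (Γ := ℕ) (fun x y => x ≤ y) (fun x => le_refl x)
    (fun x y z => le_trans) Nat.pair (fun x y x' y' h => Nat.pair_eq_pair.1 h)
    (fun x y => Nat.left_le_pair x y) (fun x y => Nat.right_le_pair x y)
    (fun n S => variation (L' n) S) _ (fun n S => variation_nonneg _ _)
    (fun n S => (variation_le (L' n) S).trans (hL'n n))
    (fun n S S' hd => variation_add_le (L' n) S S' hd) (ε := ε / 2) (by positivity)
  -- lower bound on S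
  have hlow : ∀ n ∈ S, n₀ ≤ n →
      ε / 2 ≤ ‖PT.slice (ev ⟨n⟩) (ψ (a (j n)) (B (j n) (indLC S)))‖ := by
    intro n hn hn₀
    refine le_trans ?_ (hLle n _)
    rw [indLC_eq hn, map_add]
    have hL' : L' n = L n := if_pos hn₀
    have h1 : ‖L n (indLC (S \ {n}))‖ ≤ variation (L n) (S \ {n}) :=
      le_variation _ (norm_indLC_le _) fun n' hn' => by rw [indLC_apply, if_neg hn']
    have h2 : variation (L n) (S \ {n}) < ε / 2 := by
      have := hSμ n hn
      rwa [hL'] at this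
    have h3 : L n (indLC {n}) = ((‖fib ψ n (a (j n)) (y (j n) n)‖ : ℝ) : ℂ) := by
      rw [hL, hB2, ← fib_apply]
      exact hh2 n
    have h4 : ‖L n (indLC {n})‖ = ‖fib ψ n (a (j n)) (y (j n) n)‖ := by
      rw [h3, Complex.norm_real, norm_norm]
    have h5 := (hj n hn₀).2
    have h6 : ‖L n (indLC {n})‖ - ‖L n (indLC (S \ {n}))‖ ≤
        ‖L n (indLC {n}) + L n (indLC (S \ {n}))‖ := by
      have := norm_sub_norm_le (L n (indLC {n})) (-(L n (indLC (S \ {n}))))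
      rwa [norm_neg, sub_neg_eq_add] at this
    linarith
  have hev : ∀ᶠ p : NU.{u} in atTop, ∀ i ∈ T,
      ‖PT.slice (ev p) (ψ (a i) (B i (indLC S)))‖ < ε / 2 := by
    rw [Filter.eventually_all_finset]
    intro i _
    exact NormedAddGroup.tendsto_nhds_zero.1 (tendsto_slice _) _ (by positivity)
  obtain ⟨p₁, hp₁⟩ := eventually_atTop.1 hev
  obtain ⟨n, hnM, hn⟩ := hS (max n₀ p₁.down)
  have g0 : n₀ ≤ n := (le_max_left _ _).trans hn
  have g1 : p₁.down ≤ n := (le_max_right _ _).trans hn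
  have h1 := hp₁ ⟨n⟩ g1 (j n) (hj n g0).1
  have h2 := hlow n hnM g0
  linarith

/-- Module `fg`: the functional `∑ t_i G_i ⊗ ev_{κ i}` (see `CptDim/Fib.lean`, `exists_form`). -/
theorem exists_form' (J : Finset ℕ) (κ : ℕ → ℕ) (G : ℕ → (A →L[ℂ] ℂ)) {w : ℝ} (hw : 0 ≤ w)
    (hG : ∀ a : A, ∑ j ∈ J, ‖G j a‖ ≤ w * ‖a‖) (t : ℕ → ℤ) (ht : Sgn t) :
    ∃ Φ : TN A →L[ℂ] ℂ, (∀ T, ‖Φ T‖ ≤ w * ‖T‖) ∧
      ∀ T, Φ T = ∑ i ∈ J, t i • G i (PT.slice (ev ⟨κ i⟩) T) := by
  let β : A →L[ℂ] Z0 NU.{u} →L[ℂ] ℂ := ∑ i ∈ J, t i • (G i).smulRight (ev (⟨κ i⟩ : NU.{u}))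
  have hβ : ∀ a m, β a m = ∑ i ∈ J, t i • (G i a * ev (⟨κ i⟩ : NU.{u}) m) := fun a m => by
    show (∑ i ∈ J, t i • (G i).smulRight (ev (⟨κ i⟩ : NU.{u})) : A →L[ℂ] Z0 NU.{u} →L[ℂ] ℂ) a m = _
    rw [sum_apply, sum_apply]
    rfl
  have hβn : ∀ a m, ‖β a m‖ ≤ w * ‖a‖ * ‖m‖ := fun a m => by
    rw [hβ]
    refine (norm_sum_le _ _).trans ?_
    have h1 : ∀ i ∈ J, ‖t i • (G i a * ev (⟨κ i⟩ : NU.{u}) m)‖ ≤ ‖G i a‖ * ‖m‖ := fun i _ => by
      have h2 : ‖t i • (G i a * ev (⟨κ i⟩ : NU.{u}) m)‖ = ‖G i a * ev (⟨κ i⟩ : NU.{u}) m‖ := by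
        rcases ht i with h | h
        · rw [h, one_smul]
        · rw [h, neg_one_smul, norm_neg]
      rw [h2, norm_mul]
      exact mul_le_mul_of_nonneg_left (norm_ev_apply_le _ _) (norm_nonneg _)
    refine (Finset.sum_le_sum h1).trans ?_
    rw [← Finset.sum_mul]
    exact mul_le_mul_of_nonneg_right (hG a) (norm_nonneg _)
  refine ⟨PT.lift β, fun T => ?_, fun T => ?_⟩
  · refine (PT.norm_lift_apply_le _ T).trans ?_
    refine mul_le_mul_of_nonneg_right ?_ (norm_nonneg _)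
    exact ContinuousLinearMap.opNorm_le_bound₂ _ hw hβn
  · have h : (PT.lift β : TN A →L[ℂ] ℂ) =
        ∑ i ∈ J, t i • (G i).comp (PT.slice (ev ⟨κ i⟩)) := by
      refine PT.ext' fun u z => ?_
      rw [PT.lift_tmul, hβ, sum_apply]
      refine Finset.sum_congr rfl fun i _ => ?_
      show _ = t i • G i (PT.slice (ev ⟨κ i⟩) (PT.tmul u z))
      rw [PT.slice_tmul, map_smul, smul_eq_mul, mul_comm]
    rw [h, sum_apply]
    rfl

/-- Module `fg`: see `CptDim/Fib.lean`, `b_one`. -/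
theorem fib_bone (ψ : A →L[ℂ] LY Y →L[ℂ] TN A) (J : Finset ℕ) (κ : ℕ → ℕ) (hκ : Set.InjOn κ J)
    (y : ∀ k, Y k) (R : ℝ) (hR : 0 ≤ R) (hy : ∀ k, ‖y k‖ ≤ R) (G : ℕ → (A →L[ℂ] ℂ)) (w : ℝ)
    (hw : 0 ≤ w) (hG : ∀ a, ∑ j ∈ J, ‖G j a‖ ≤ w * ‖a‖) (a : A) :
    ‖∑ j ∈ J, G j (fib ψ (κ j) a (y (κ j)))‖ ≤ ‖ψ‖ * ‖a‖ * R * w := by
  classical
  obtain ⟨t, ht, h1⟩ := sign_two J (0 : ℂ)
    (fun i j => G i (PT.slice (ev ⟨κ i⟩) (ψ a (sgl (κ j) (y (κ j))))))
  obtain ⟨Φ, hΦ1, hΦ2⟩ := exists_form' J κ G hw hG t ht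
  simp only [zero_add] at h1
  have h2 : ∑ i ∈ J, ∑ j ∈ J, (t i * t j) • G i (PT.slice (ev ⟨κ i⟩)
      (ψ a (sgl (κ j) (y (κ j))))) = Φ (ψ a (∑ j ∈ J, sgl (κ j) (t j • y (κ j)))) := by
    rw [hΦ2]
    refine Finset.sum_congr rfl fun i _ => ?_
    rw [map_sum, map_sum, map_sum, Finset.smul_sum]
    refine Finset.sum_congr rfl fun j _ => ?_
    rw [map_zsmul, map_zsmul, map_zsmul, map_zsmul, smul_smul]
  rw [h2] at h1
  refine h1.trans ((hΦ1 _).trans ?_)
  have h3 : ‖∑ j ∈ J, sgl (κ j) (t j • y (κ j))‖ ≤ R := by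
    refine lp.norm_le_of_forall_le hR fun k => ?_
    have e1 : (∑ j ∈ J, sgl (κ j) (t j • y (κ j)) : LY Y) k =
        ∑ j ∈ J, (sgl (κ j) (t j • y (κ j)) : LY Y) k := by
      rw [lp.coeFn_sum, Finset.sum_apply]
    rw [e1]
    by_cases hk : ∃ i ∈ J, κ i = k
    · obtain ⟨i, hi, rfl⟩ := hk
      rw [Finset.sum_eq_single i]
      · rw [sgl_apply_self]
        rcases ht i with h | h
        · rw [h, one_smul]
          exact hy _
        · rw [h, neg_one_smul, norm_neg]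
          exact hy _
      · intro j hj hji
        exact sgl_apply_ne (fun h => hji (hκ hj hi h.symm)) _
      · intro h
        exact absurd hi h
    · push Not at hk
      rw [Finset.sum_eq_zero, norm_zero]
      · exact hR
      · intro j hj
        exact sgl_apply_ne (fun h => hk j hj h.symm) _
  have h4 : ‖ψ a (∑ j ∈ J, sgl (κ j) (t j • y (κ j)))‖ ≤ ‖ψ‖ * ‖a‖ * R :=
    (ψ.le_opNorm₂ _ _).trans (mul_le_mul_of_nonneg_left h3 (by
      have : 0 ≤ ‖ψ‖ := ContinuousLinearMap.opNorm_nonneg ψ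
      positivity))
  rw [mul_comm w]
  exact mul_le_mul_of_nonneg_right h4 hw

/-- The fibres. -/
theorem exists_fibD [∀ k, CompleteSpace (Y k)] (F : Fam A Y) (hV : Vanish A) :
    Nonempty (FibD F) := by
  obtain ⟨ψ, hψ⟩ := F.exists_psi hV
  exact ⟨{ Ψ := fib ψ
           K := ‖ψ‖
           K_nonneg := ContinuousLinearMap.opNorm_nonneg ψ
           le := norm_fib_le ψ
           two := fib_two F ψ hψ
           small := fib_small ψ
           bone := fib_bone ψ }⟩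

end Pool.Agent.FinBlk
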