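import Pool.Agent.FinBlk.Omg
import Pool.Agent.CptDim.Seq

/-!
# The contradiction (T2, text 4)
-/

set_option autoImplicit false
set_option linter.unusedSectionVars false

noncomputable section

namespace Pool.Agent.FinBlk

universe u v

open ContinuousLinearMap Filter Topology Finset
open Pool.Agent.MP_a77edb_an Pool.Agent.CptDim

private theorem fbl_ha_mono (k : ℕ → ℕ) (h : ∀ i j, i < j → k i < k j) : StrictMono k :=
  fun i j hij => h i j hij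

/-- Module `ha` (`seq_build` with `α = ℕ × ℕ`): alternate choice of nodes `k j` and leaves `l j`. -/
theorem exists_chain (m : ℕ → ℕ → ℂ) {δ : ℝ} (hδ : 0 < δ)
    (h1 : ∀ (F : Finset ℕ) (n₀ : ℕ), ∃ k, n₀ ≤ k ∧ ∀ i ∈ F, ‖1 - m i k‖ < δ)
    (h2 : ∀ k, Tendsto (fun i => m i k) atTop (𝓝 0)) :
    ∃ k l : ℕ → ℕ, Function.Injective k ∧ (∀ i j, i < j → ‖1 - m (l i) (k j)‖ ≤ δ) ∧
      ∀ i j, j ≤ i → ‖m (l i) (k j)‖ ≤ δ := by
  obtain ⟨f, hf⟩ := seq_build (α := ℕ × ℕ)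
    (fun n f a => (∀ i < n, (f i).1 < a.1) ∧ (∀ i < n, ‖1 - m (f i).2 a.1‖ ≤ δ) ∧
      (∀ j < n, ‖m a.2 (f j).1‖ ≤ δ) ∧ ‖m a.2 a.1‖ ≤ δ)
    (fun n f f' a hff h => by
      refine ⟨fun i hi => ?_, fun i hi => ?_, fun i hi => ?_, h.2.2.2⟩
      · rw [← hff i hi]
        exact h.1 i hi
      · rw [← hff i hi]
        exact h.2.1 i hi
      · rw [← hff i hi]
        exact h.2.2.1 i hi)
    (fun n f _ => by
      obtain ⟨k, hk, hk'⟩ := h1 ((range n).image fun i => (f i).2)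
        (((range n).image fun i => (f i).1).sup id + 1)
      have h3 : ∀ k', ∀ᶠ i in atTop, ‖m i k'‖ ≤ δ := by
        intro k'
        have h4 := (h2 k').norm
        rw [norm_zero] at h4
        exact (h4.eventually (gt_mem_nhds hδ)).mono fun i hi => le_of_lt hi
      have h5 : ∀ᶠ i in atTop, (∀ j ∈ range n, ‖m i (f j).1‖ ≤ δ) ∧ ‖m i k‖ ≤ δ := by
        refine Filter.Eventually.and ?_ (h3 k)
        rw [Filter.eventually_all_finset]
        exact fun j _ => h3 _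
      obtain ⟨l, hl⟩ := h5.exists
      refine ⟨(k, l), fun i hi => ?_, fun i hi => ?_, fun j hj => hl.1 j (Finset.mem_range.2 hj),
        hl.2⟩
      · have h6 : (f i).1 ≤ ((range n).image fun i => (f i).1).sup id :=
          Finset.le_sup (f := id) (Finset.mem_image_of_mem _ (Finset.mem_range.2 hi))
        exact lt_of_lt_of_le (Nat.lt_succ_of_le h6) hk
      · exact (hk' _ (Finset.mem_image_of_mem _ (Finset.mem_range.2 hi))).le)
  refine ⟨fun n => (f n).1, fun n => (f n).2, ?_, fun i j hij => (hf j).2.1 i hij,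
    fun i j hij => ?_⟩
  · exact (fbl_ha_mono _ fun i j hij => (hf j).1 i hij).injective
  · rcases Nat.lt_or_eq_of_le hij with h | h
    · exact (hf i).2.2.1 j h
    · subst h
      exact (hf j).2.2.2

/-- pointwise estimate -/
private theorem fbl_hb_pt (x : ℂ) {δ : ℝ} (e : ℤ) (he : e = 0 ∨ e = 1 ∨ e = -1)
    (h1 : e = 1 → ‖x‖ ≤ δ) (h2 : e = -1 → ‖1 - x‖ ≤ δ) :
    ‖(e : ℂ) * x - ((e : ℂ) - (|e| : ℤ)) / 2‖ ≤ (|e| : ℤ) * δ := by
  rcases he with rfl | rfl | rfl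
  · simp
  · simpa using h1 rfl
  · have h3 := h2 rfl
    have e1 : (((-1 : ℤ) : ℂ)) * x - ((((-1 : ℤ) : ℂ)) - ((|(-1 : ℤ)| : ℤ) : ℂ)) / 2 =
        1 - x := by
      simp
      ring
    rw [e1]
    simpa using h3

/-- Module `hb` (the proof of `CptDim.c1_sum` for a matrix). -/
theorem c1_mat (r : ℕ) (m : ℕ → ℕ → ℂ) {δ : ℝ} (hδ : 0 ≤ δ)
    (h1 : ∀ i j, j ≤ i → ‖m i j‖ ≤ δ) (h2 : ∀ i j, i < j → ‖1 - m i j‖ ≤ δ) :
    (r : ℝ) / 2 - r * δ ≤
      ‖∑ j ∈ Ico 1 (2 ^ r), ∑ i ∈ range (2 ^ r), (((ee i j : ℝ) / 2 ^ r : ℝ) : ℂ) * m i j‖ := by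
  set N : ℕ := 2 ^ r with hN
  have hNR : (N : ℝ) = 2 ^ r := by rw [hN]; push_cast; rfl
  have hNpos : (0 : ℝ) < N := by rw [hNR]; positivity
  set T : ℂ := ∑ j ∈ Ico 1 N, ∑ i ∈ range N, (ee i j : ℂ) * m i j with hT
  have e1 : ∑ j ∈ Ico 1 N, ∑ i ∈ range N,
        (((ee i j : ℝ) / 2 ^ r : ℝ) : ℂ) * m i j = T / N := by
    rw [hT, Finset.sum_div]
    refine Finset.sum_congr rfl fun j _ => ?_
    rw [Finset.sum_div]
    refine Finset.sum_congr rfl fun i _ => ?_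
    have : ((N : ℕ) : ℂ) = 2 ^ r := by rw [hN]; push_cast; rfl
    rw [this]
    push_cast
    ring
  have habs : ∑ j ∈ Ico 1 N, ∑ i ∈ range N, |ee i j| = (N : ℤ) * r := by
    rw [Finset.sum_comm]
    rw [Finset.sum_congr rfl fun i hi => sum_abs_ee r i (Finset.mem_range.1 hi)]
    rw [Finset.sum_const, Finset.card_range, nsmul_eq_mul]
  have hzero : ∑ j ∈ Ico 1 N, ∑ i ∈ range N, ee i j = 0 :=
    Finset.sum_eq_zero fun j hj => sum_ee r j (Finset.mem_Ico.1 hj).1 (Finset.mem_Ico.1 hj).2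
  have e2 : ∑ j ∈ Ico 1 N, ∑ i ∈ range N, ((ee i j : ℂ) - (|ee i j| : ℤ)) / 2 =
      -((N : ℂ) * r / 2) := by
    have h3 : ∑ j ∈ Ico 1 N, ∑ i ∈ range N, ((ee i j : ℂ) - (|ee i j| : ℤ)) / 2 =
        (((∑ j ∈ Ico 1 N, ∑ i ∈ range N, ee i j : ℤ) : ℂ) -
          ((∑ j ∈ Ico 1 N, ∑ i ∈ range N, |ee i j| : ℤ) : ℂ)) / 2 := by
      push_cast
      simp only [← Finset.sum_div, ← Finset.sum_sub_distrib]
    rw [h3, habs, hzero]
    push_cast
    ring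
  have e3 : ‖T - -((N : ℂ) * r / 2)‖ ≤ N * r * δ := by
    rw [← e2, hT]
    simp only [← Finset.sum_sub_distrib]
    refine (norm_sum_le _ _).trans ?_
    have h3 : ∀ j ∈ Ico 1 N, ‖∑ i ∈ range N, ((ee i j : ℂ) * m i j -
        ((ee i j : ℂ) - (|ee i j| : ℤ)) / 2)‖ ≤ ∑ i ∈ range N, ((|ee i j| : ℤ) : ℝ) * δ := by
      intro j _
      refine (norm_sum_le _ _).trans (Finset.sum_le_sum fun i _ => ?_)
      exact fbl_hb_pt (m i j) (ee i j) (ee_cases i j)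
        (fun h => h1 i j (ee_eq_one h)) (fun h => h2 i j (ee_eq_neg_one h))
    refine (Finset.sum_le_sum h3).trans (le_of_eq ?_)
    simp only [← Finset.sum_mul]
    have h4 : (∑ j ∈ Ico 1 N, ∑ i ∈ range N, ((|ee i j| : ℤ) : ℝ)) =
        ((∑ j ∈ Ico 1 N, ∑ i ∈ range N, |ee i j| : ℤ) : ℝ) := by push_cast; rfl
    rw [h4, habs]
    push_cast
    ring
  rw [e1, norm_div, Complex.norm_natCast, le_div_iff₀ hNpos]
  have e4 : ‖(-((N : ℂ) * r / 2) : ℂ)‖ = N * r / 2 := by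
    rw [norm_neg, norm_div, norm_mul, Complex.norm_natCast, Complex.norm_natCast]
    norm_num
  have e5 : ‖(-((N : ℂ) * r / 2) : ℂ)‖ ≤ ‖T‖ + ‖T - -((N : ℂ) * r / 2)‖ := by
    have := norm_sub_norm_le (-((N : ℂ) * r / 2) : ℂ) T
    rw [norm_sub_rev] at this
    linarith
  rw [e4] at e5
  nlinarith

/-- Module `hc` (`∑ ‖w_j‖ ≤ 2 max ‖∑ t_j w_j‖`, see `sum_norm_le_signs`, and `sum_abs_hh_le`). -/
theorem sum_col_le (r : ℕ) (u : ℕ → ℂ) {M : ℝ} (hM : 0 ≤ M) (hu : ∀ i, ‖u i‖ ≤ M) :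
    ∑ j ∈ Ico 1 (2 ^ r), ‖∑ i ∈ range (2 ^ r), (((ee i j : ℝ) / 2 ^ r : ℝ) : ℂ) * u i‖ ≤
      2 * Real.sqrt r * M := by
  have h1 : ∀ t : ℕ → ℤ, Sgn t → ‖∑ j ∈ Ico 1 (2 ^ r),
      t j • ∑ i ∈ range (2 ^ r), (((ee i j : ℝ) / 2 ^ r : ℝ) : ℂ) * u i‖ ≤ Real.sqrt r * M := by
    intro t ht
    have e1 : ∑ j ∈ Ico 1 (2 ^ r),
        t j • ∑ i ∈ range (2 ^ r), (((ee i j : ℝ) / 2 ^ r : ℝ) : ℂ) * u i =
        ∑ i ∈ range (2 ^ r), ((hh (2 ^ r) t i : ℝ) : ℂ) / 2 ^ r * u i := by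
      unfold hh
      simp only [Finset.smul_sum]
      rw [Finset.sum_comm]
      refine Finset.sum_congr rfl fun i _ => ?_
      rw [Int.cast_sum, Complex.ofReal_sum, Finset.sum_div, Finset.sum_mul]
      refine Finset.sum_congr rfl fun j _ => ?_
      rw [zsmul_eq_mul]
      push_cast
      ring
    rw [e1]
    have h2 := sum_abs_hh_le r t ht
    calc ‖∑ i ∈ range (2 ^ r), ((hh (2 ^ r) t i : ℝ) : ℂ) / 2 ^ r * u i‖
        ≤ ∑ i ∈ range (2 ^ r), |(hh (2 ^ r) t i : ℝ)| / 2 ^ r * M := by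
          refine (norm_sum_le _ _).trans (Finset.sum_le_sum fun i _ => ?_)
          rw [norm_mul, norm_div, Complex.norm_real, Real.norm_eq_abs, norm_pow]
          have h3 : ‖(2 : ℂ)‖ = 2 := by norm_num
          rw [h3]
          exact mul_le_mul_of_nonneg_left (hu i) (by positivity)
      _ = (∑ i ∈ range (2 ^ r), |(hh (2 ^ r) t i : ℝ)|) / 2 ^ r * M := by
          rw [Finset.sum_div, Finset.sum_mul]
      _ ≤ Real.sqrt r * M := by
          refine mul_le_mul_of_nonneg_right ?_ hM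
          rw [div_le_iff₀ (by positivity), mul_comm (Real.sqrt r)]
          exact h2
  refine (sum_norm_le_signs (Ico 1 (2 ^ r)) _ _ h1).trans (le_of_eq (by ring))

variable {A : Type u} [NonUnitalNormedRing A] [NormedSpace ℂ A] [IsScalarTower ℂ A A]
  [SMulCommClass ℂ A A] [CompleteSpace A]

/-- Module `hd`: for every `r`. -/
theorem OData.bound (O : OData A) (r : ℕ) :
    (r : ℝ) / 4 ≤ O.D.K * (‖O.ρ‖ + ‖O.v‖) * O.K₁ * (2 * Real.sqrt r) := by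
  obtain ⟨k, l, hk, h1, h2⟩ := exists_chain (fun i k => O.t i (O.S k)) (δ := 1 / 4) (by norm_num)
    (fun F n₀ => O.exists_node F (1 / 4) (by norm_num) n₀) (fun k => O.tend_t (O.S k))
  have h3 := c1_mat r (fun i j => O.t (l i) (O.S (k j))) (by norm_num : (0 : ℝ) ≤ 1 / 4)
    (fun i j hij => h2 i j hij) (fun i j hij => h1 i j hij)
  let G : ℕ → (A →L[ℂ] ℂ) := fun j =>
    ∑ i ∈ range (2 ^ r), (((ee i j : ℝ) / 2 ^ r : ℝ) : ℂ) • O.t (l i)
  have hG : ∀ j a, G j a = ∑ i ∈ range (2 ^ r), (((ee i j : ℝ) / 2 ^ r : ℝ) : ℂ) * O.t (l i) a := by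
    intro j a
    show (∑ i ∈ range (2 ^ r), (((ee i j : ℝ) / 2 ^ r : ℝ) : ℂ) • O.t (l i) : A →L[ℂ] ℂ) a = _
    rw [_root_.sum_apply]
    rfl
  have h4 := O.sum_S_le (Ico 1 (2 ^ r)) k hk.injOn G (2 * Real.sqrt r) (by positivity) fun a => by
    simp only [hG]
    exact sum_col_le r (fun i => O.t (l i) a) (norm_nonneg a) fun i => O.norm_t_le (l i) a
  simp only [hG] at h4
  have h5 := h3.trans h4
  linarith

/-- Module `he`: the theorem for central idempotents. -/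
theorem no_blocks (B : Blk A) (hV : Vanish A) : False := by
  obtain ⟨O⟩ := exists_odata B hV
  set C : ℝ := O.D.K * (‖O.ρ‖ + ‖O.v‖) * O.K₁ with hC
  obtain ⟨n, hn⟩ := exists_nat_gt (8 * |C|)
  have h := O.bound (n ^ 2)
  rw [← hC] at h
  have h1 : Real.sqrt ((n ^ 2 : ℕ) : ℝ) = n := by
    push_cast
    exact Real.sqrt_sq (Nat.cast_nonneg n)
  rw [h1] at h
  push_cast at h
  have h2 : (0 : ℝ) < n := lt_of_le_of_lt (by positivity) hn
  have h3 : C ≤ |C| := le_abs_self C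
  nlinarith

end Pool.Agent.FinBlk
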