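import Pool.Agent.FinBlk.Unit
import Pool.Agent.CptDim.Stm
import Pool.Agent.CptDim.Inst

/-!
# Families of minimal idempotents (T2, text 6)
-/

set_option autoImplicit false
set_option linter.unusedSectionVars false

noncomputable section

namespace Pool.Agent.FinBlk

universe u v

open ContinuousLinearMap Filter Topology Finset
open Pool.Agent.MP_a77edb_an Pool.Agent.CptDim

variable {A : Type u} [NonUnitalNormedRing A] [NormedSpace ℂ A] [IsScalarTower ℂ A A]
  [SMulCommClass ℂ A A]

theorem mul_e {e : A} (hmin : MinIdem e) {y : A} (hy : y ∈ lid e) : y * e = y := by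
  obtain ⟨x, rfl⟩ := hy
  show x * e * e = x * e
  rw [mul_assoc, hmin.2.1]

/-- Injectivity of `e A → (A e)*`. -/
def Faithful (e : A) : Prop := ∀ u : A, (∀ x : A, e * u * (x * e) = 0) → e * u = 0

/-- Module `ia`: dual bases `x_j ∈ A e`, `u_j ∈ e A`, `u_j x_i = δ_ij e`. -/
theorem exists_dual {e : A} (hmin : MinIdem e) (hfd : FiniteDimensional ℂ (lid e))
    (hfun : GivesFunctionals e) : ∃ (m : ℕ) (x u : ℕ → A), (∀ j, x j * e = x j) ∧
      (∀ j, e * u j = u j) ∧
      (∀ i ∈ range m, ∀ j ∈ range m, u i * x j = if i = j then e else 0) ∧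
      ∀ y : A, ∃ c : ℕ → ℂ, y * e = ∑ j ∈ range m, c j • x j := by
  classical
  set m := Module.finrank ℂ (lid e) with hm
  let b := Module.finBasis ℂ (lid e)
  -- the coordinate functionals
  have hφ : ∀ i : Fin (Module.finrank ℂ (lid e)), ∃ φ : A →L[ℂ] ℂ, ∀ y : lid e, φ y = b.coord i y := by
    intro i
    obtain ⟨g, hg, -⟩ := exists_extension_norm_eq (lid e) (LinearMap.toContinuousLinearMap (b.coord i))
    exact ⟨g, fun y => hg y⟩
  choose φ hφ using hφ
  have hv : ∀ i : Fin (Module.finrank ℂ (lid e)), ∃ v : A, ∀ y : lid e, v * (y : A) = b.coord i y • e := by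
    intro i
    obtain ⟨v, hv⟩ := hfun (φ i)
    refine ⟨v, fun y => ?_⟩
    have h1 := hv (y : A)
    rw [mul_e hmin y.2] at h1
    rw [h1, hφ]
  choose v hv using hv
  have hxe : ∀ i, (b i : A) * e = (b i : A) := fun i => mul_e hmin (b i).2
  refine ⟨m, fun j => if h : j < m then (b ⟨j, h⟩ : A) else 0,
    fun j => if h : j < m then e * v ⟨j, h⟩ else 0, fun j => ?_, fun j => ?_, ?_, ?_⟩
  · by_cases h : j < m
    · simp only [dif_pos h]
      exact hxe _
    · simp only [dif_neg h, zero_mul]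
  · by_cases h : j < m
    · simp only [dif_pos h]
      rw [← mul_assoc, hmin.2.1]
    · simp only [dif_neg h, mul_zero]
  · intro i hi j hj
    rw [mem_range] at hi hj
    simp only [dif_pos hi, dif_pos hj]
    rw [mul_assoc, hv, mul_smul_comm, hmin.2.1, Module.Basis.coord_apply, b.repr_self,
      Finsupp.single_apply]
    by_cases hij : i = j
    · subst hij
      simp
    · have h2 : ¬ ((⟨j, hj⟩ : Fin m) = ⟨i, hi⟩) := fun h => hij (Fin.mk.inj_iff.1 h).symm
      rw [if_neg h2, if_neg hij, zero_smul]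
  · intro y
    let y' : lid e := ⟨y * e, y, rfl⟩
    refine ⟨fun j => if h : j < m then b.coord ⟨j, h⟩ y' else 0, ?_⟩
    have h1 := b.sum_repr y'
    have h2 : y * e = ((∑ i, b.repr y' i • b i : lid e) : A) := by rw [h1]
    rw [h2, Submodule.coe_sum, Finset.sum_range]
    refine Finset.sum_congr rfl fun i _ => ?_
    beta_reduce
    rw [dif_pos (show (i : ℕ) < m from i.2), dif_pos (show (i : ℕ) < m from i.2)]
    rfl

private theorem ib_ker {e : A} {m : ℕ} {x : ℕ → A}
    (hsp : ∀ y : A, ∃ c : ℕ → ℂ, y * e = ∑ j ∈ range m, c j • x j) (w : A)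
    (h : ∀ j ∈ range m, w * x j = 0) (y : A) : w * (y * e) = 0 := by
  obtain ⟨c, hc⟩ := hsp y
  rw [hc, Finset.mul_sum]
  refine Finset.sum_eq_zero fun j hj => ?_
  rw [mul_smul_comm, h j hj, smul_zero]

/-- Module `ib`: `p = ∑ x_j u_j`. -/
theorem exists_p {e : A} (hmin : MinIdem e) (hfd : FiniteDimensional ℂ (lid e))
    (hfun : GivesFunctionals e) (hinj : Faithful e) : ∃ p : A, p ≠ 0 ∧ p * p = p ∧
      (∀ a, p * a = a * p) ∧ FiniteDimensional ℂ (vp p) ∧
      ∃ (m : ℕ) (x u : ℕ → A), (∀ j, x j * e = x j) ∧ (∀ j, e * u j = u j) ∧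
        p = ∑ j ∈ range m, x j * u j := by
  classical
  obtain ⟨m, x, u, hx, hu, hd, hsp⟩ := exists_dual hmin hfd hfun
  set p : A := ∑ j ∈ range m, x j * u j with hp
  have hpx : ∀ j ∈ range m, p * x j = x j := by
    intro j hj
    rw [hp, Finset.sum_mul]
    rw [Finset.sum_eq_single_of_mem j hj]
    · rw [mul_assoc, hd j hj j hj, if_pos rfl, hx]
    · intro i hi hij
      rw [mul_assoc, hd i hi j hj, if_neg hij, mul_zero]
  have hpe : ∀ y : A, p * (y * e) = y * e := by
    intro y
    obtain ⟨c, hc⟩ := hsp y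
    rw [hc, Finset.mul_sum]
    refine Finset.sum_congr rfl fun j hj => ?_
    rw [mul_smul_comm, hpx j hj]
  have hpy : ∀ y : A, y * e = y → p * y = y := by
    intro y hy
    rw [← hy]
    exact hpe y
  have hup : ∀ (a : A), ∀ j ∈ range m, u j * a * p = u j * a := by
    intro a j hj
    have h1 : e * (u j * a * p - u j * a) = 0 := by
      refine hinj _ fun y => ?_
      rw [mul_sub, sub_mul]
      have h2 : e * (u j * a * p) * (y * e) = e * (u j * a) * (y * e) := by
        rw [mul_assoc, mul_assoc (u j * a) p, hpe y, ← mul_assoc]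
      rw [h2, sub_self]
    have h3 : e * (u j * a * p - u j * a) = u j * a * p - u j * a := by
      rw [mul_sub]
      simp only [← mul_assoc]
      rw [hu]
    rw [h3] at h1
    exact sub_eq_zero.1 h1
  have hpap : ∀ a : A, p * a * p = p * a := by
    intro a
    rw [hp, Finset.sum_mul, Finset.sum_mul]
    rw [← hp]
    refine Finset.sum_congr rfl fun j hj => ?_
    rw [mul_assoc (x j) (u j) a, mul_assoc (x j) (u j * a) p, hup a j hj]
  have hpap' : ∀ a : A, p * (a * p) = a * p := by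
    intro a
    rw [hp, Finset.mul_sum, Finset.mul_sum]
    rw [← hp]
    refine Finset.sum_congr rfl fun j hj => ?_
    rw [← mul_assoc a, ← mul_assoc p]
    rw [hpy (a * x j) (by rw [mul_assoc, hx])]
  have hcomm : ∀ a, p * a = a * p := by
    intro a
    rw [← hpap a, mul_assoc, hpap' a]
  have hpp : p * p = p := by
    conv_lhs => rw [hp, Finset.mul_sum]
    rw [← hp]
    conv_rhs => rw [hp]
    refine Finset.sum_congr rfl fun j hj => ?_
    rw [← mul_assoc, hpx j hj]
  have hp0 : p ≠ 0 := by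
    intro h0
    have h1 := hpe e
    rw [h0, zero_mul, hmin.2.1] at h1
    exact hmin.1 h1.symm
  refine ⟨p, hp0, hpp, hcomm, ?_, m, x, u, hx, hu, hp⟩
  -- finite dimension
  obtain ⟨ℓ, hℓ⟩ := SeparatingDual.exists_eq_one (R := ℂ) hmin.1
  have hue : ∀ (w : A) (i j : ℕ), u i * w * x j = ℓ (u i * w * x j) • e := by
    intro w i j
    obtain ⟨t, ht⟩ := hmin.2.2 (u i * w * x j)
    have h1 : e * (u i * w * x j) * e = u i * w * x j := by
      rw [← mul_assoc, ← mul_assoc, hu, mul_assoc, hx]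
    rw [h1] at ht
    rw [ht, map_smul, hℓ, smul_eq_mul, mul_one]
  let L : vp p →ₗ[ℂ] (Fin m → Fin m → ℂ) :=
    { toFun := fun w i j => ℓ (u i * (w : A) * x j)
      map_add' := fun w w' => by
        funext i j
        show ℓ (u i * ((w : A) + (w' : A)) * x j) = ℓ (u i * (w : A) * x j) + ℓ (u i * (w' : A) * x j)
        rw [mul_add, add_mul, map_add]
      map_smul' := fun t w => by
        funext i j
        show ℓ (u i * (t • (w : A)) * x j) = t • ℓ (u i * (w : A) * x j)
        rw [mul_smul_comm, smul_mul_assoc, map_smul] }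
  refine FiniteDimensional.of_injective L ?_
  rw [← LinearMap.ker_eq_bot, LinearMap.ker_eq_bot']
  intro w hw
  have h1 : ∀ i ∈ range m, ∀ j ∈ range m, u i * (w : A) * x j = 0 := by
    intro i hi j hj
    rw [hue]
    have h2 : ℓ (u i * (w : A) * x j) = 0 :=
      congrFun (congrFun hw ⟨i, mem_range.1 hi⟩) ⟨j, mem_range.1 hj⟩
    rw [h2, zero_smul]
  have h2 : ∀ i ∈ range m, u i * (w : A) = 0 := by
    intro i hi
    have h3 : e * (u i * (w : A)) = 0 := by
      refine hinj _ fun y => ?_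
      have h4 : e * (u i * (w : A)) = u i * (w : A) := by rw [← mul_assoc, hu]
      rw [h4]
      exact ib_ker hsp _ (h1 i hi) y
    rwa [← mul_assoc, hu] at h3
  refine Subtype.ext ?_
  have h3 : p * (w : A) = (w : A) := w.2
  have h4 : ∀ w' : A, (∀ i ∈ range m, u i * w' = 0) → p * w' = 0 := by
    intro w' hw'
    rw [hp, Finset.sum_mul]
    refine Finset.sum_eq_zero fun i hi => ?_
    rw [mul_assoc, hw' i hi, mul_zero]
  exact h3.symm.trans (h4 _ h2)

/-- The hypothesis on the dense set. -/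
def DenseScalar {κ : Type v} (e : κ → A) : Prop :=
  ∀ (a : A) (ε : ℝ), 0 < ε → ∃ (b : A) (t : ℂ), ‖a - b‖ < ε ∧ (∀ k, CompactOn (e k) b t) ∧
    {k | ∃ x : A, b * (x * e k) ≠ t • (x * e k)}.Finite

/-- Module `ic`. -/
theorem exists_blkS {κ : Type v} [Infinite κ] (e : κ → A) (hmin : ∀ k, MinIdem (e k))
    (horth : ∀ k l, k ≠ l → ∀ a : A, e k * a * e l = 0)
    (hfd : ∀ k, FiniteDimensional ℂ (lid (e k))) (hfun : ∀ k, GivesFunctionals (e k))
    (hinj : ∀ k, Faithful (e k)) (hd : DenseScalar e) : Nonempty (BlkS A) := by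
  classical
  choose p hp0 hpp hpc hpf m x u hx hu hps using fun k =>
    exists_p (hmin k) (hfd k) (hfun k) (hinj k)
  let f : ℕ ↪ κ := Infinite.natEmbedding κ
  refine ⟨{
    p := fun n => p (f n)
    p_ne := fun n => hp0 _
    p_idem := fun n => hpp _
    p_comm := fun n a => hpc _ a
    p_orth := fun k l hkl => ?_
    fin := fun n => hpf _
    dense := fun a ε hε => ?_ }⟩
  · have hne : f k ≠ f l := fun h => hkl (f.injective h)
    rw [hps (f k), hps (f l), Finset.sum_mul]
    refine Finset.sum_eq_zero fun i _ => ?_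
    rw [Finset.mul_sum]
    refine Finset.sum_eq_zero fun j _ => ?_
    have h1 : u (f k) i * x (f l) j = 0 := by
      rw [← hu (f k) i, ← hx (f l) j, ← mul_assoc, mul_assoc (e (f k)) (u (f k) i)]
      exact horth _ _ hne _
    rw [mul_assoc, ← mul_assoc (u (f k) i), h1, zero_mul, mul_zero]
  · obtain ⟨b, t, h1, -, h3⟩ := hd a ε hε
    refine ⟨b, h1, t, ?_⟩
    have h4 : (f ⁻¹' {k | ∃ y : A, b * (y * e k) ≠ t • (y * e k)}).Finite :=
      h3.preimage f.injective.injOn
    obtain ⟨k₀, hk₀⟩ := h4.bddAbove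
    refine ⟨k₀ + 1, fun k hk => ?_⟩
    have h5 : ∀ y : A, b * (y * e (f k)) = t • (y * e (f k)) := by
      intro y
      by_contra hne
      have h6 := hk₀ (show k ∈ f ⁻¹' {k | ∃ y : A, b * (y * e k) ≠ t • (y * e k)} from ⟨y, hne⟩)
      omega
    show p (f k) * b = t • p (f k)
    rw [hpc, hps (f k), Finset.mul_sum, Finset.smul_sum]
    refine Finset.sum_congr rfl fun j _ => ?_
    have h6 := h5 (x (f k) j)
    rw [hx] at h6
    rw [← mul_assoc, h6, smul_mul_assoc]

variable [CompleteSpace A]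

private theorem id_le {E : Type u} [NormedAddCommGroup E] [NormedSpace ℂ E] [CompleteSpace E]
    (hE : ¬ FiniteDimensional ℂ E) (T : E →L[ℂ] E) (t : ℂ)
    (h : IsCompactOperator (T - t • ContinuousLinearMap.id ℂ E)) : ‖t‖ ≤ ‖T‖ := by
  refine le_of_forall_pos_le_add fun ε hε => ?_
  have h1 := cpt_far (T - t • ContinuousLinearMap.id ℂ E) h hε
  obtain ⟨z, hz1, hz2⟩ := ((frequently_unit hE).and_eventually h1).exists
  have h2 : t • z = T z - (T - t • ContinuousLinearMap.id ℂ E) z := by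
    rw [sub_apply, smul_apply, id_apply, sub_sub_cancel]
  have h3 : ‖t • z‖ ≤ ‖T‖ + ε := by
    rw [h2]
    refine (norm_sub_le _ _).trans (add_le_add ?_ hz2)
    refine (T.le_opNorm z).trans ?_
    rw [hz1, mul_one]
  rwa [norm_smul, hz1, mul_one] at h3

/-- Module `id`: the set of operators scalar + compact on `A e` is closed (`A e`
infinite-dimensional). -/
theorem closed_scalar {e : A} (hmin : MinIdem e) (hinf : ¬ FiniteDimensional ℂ (lid e))
    (h : ∀ (a : A) (ε : ℝ), 0 < ε → ∃ (b : A) (t : ℂ), ‖a - b‖ < ε ∧ CompactOn e b t) (a : A) :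
    ∃ t : ℂ, CompactOn e a t := by
  obtain ⟨π, hπ⟩ := exists_act e
  have hcl : IsClosed (lid e : Set A) := isClosed_lid hmin.2.1
  have : CompleteSpace (lid e) := hcl.completeSpace_coe
  have hx : ∀ x : lid e, (x : A) * e = x := fun x => mul_e hmin x.2
  have hπn : ∀ b : A, ‖π b‖ ≤ ‖b‖ := by
    intro b
    refine ContinuousLinearMap.opNorm_le_bound _ (norm_nonneg b) fun x => ?_
    show ‖((π b x : lid e) : A)‖ ≤ ‖b‖ * ‖(x : A)‖
    rw [hπ]
    exact norm_mul_le _ _
  -- translation
  have htr : ∀ (b : A) (t : ℂ), CompactOn e b t →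
      IsCompactOperator (π b - t • ContinuousLinearMap.id ℂ (lid e)) := by
    intro b t hb
    obtain ⟨K, hK, hKb⟩ := hb
    have hK' : IsCompact ((Subtype.val : lid e → A) ⁻¹' K) :=
      hcl.isClosedEmbedding_subtypeVal.isCompact_preimage hK
    refine (isCompactOperator_iff_image_closedBall_subset_compact
      ((π b - t • ContinuousLinearMap.id ℂ (lid e) : lid e →L[ℂ] lid e) : lid e →ₗ[ℂ] lid e)
      one_pos).2 ⟨_, hK', ?_⟩
    rintro _ ⟨x, hx1, rfl⟩
    have h1 : ‖(x : A) * e‖ ≤ 1 := by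
      rw [hx]
      exact mem_closedBall_zero_iff.1 hx1
    have h2 := hKb (x : A) h1
    rw [hx] at h2
    show (((π b x : lid e) : A) - t • (x : A)) ∈ K
    rw [hπ]
    exact h2
  have hch : ∀ n : ℕ, ∃ (b : A) (t : ℂ), ‖a - b‖ < 1 / ((n : ℝ) + 1) ∧ CompactOn e b t :=
    fun n => h a _ Nat.one_div_pos_of_nat
  choose b t hb hbt using hch
  have hbt' := fun n => htr _ _ (hbt n)
  have htend : Tendsto (fun n : ℕ => 1 / ((n : ℝ) + 1)) atTop (𝓝 0) :=
    tendsto_one_div_add_atTop_nhds_zero_nat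
  have hba : Tendsto b atTop (𝓝 a) := by
    rw [tendsto_iff_norm_sub_tendsto_zero]
    refine squeeze_zero (fun n => norm_nonneg _) (fun n => ?_) htend
    rw [norm_sub_rev]
    exact (hb n).le
  -- the scalars are a Cauchy sequence
  have htt : ∀ n k, ‖t n - t k‖ ≤ ‖b n - b k‖ := by
    intro n k
    refine le_trans (id_le hinf (π (b n - b k)) (t n - t k) ?_) (hπn _)
    have h2 := (hbt' n).sub (hbt' k)
    have h3 : ((π (b n) - t n • ContinuousLinearMap.id ℂ (lid e) : lid e →L[ℂ] lid e) :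
        lid e → lid e) -
        ((π (b k) - t k • ContinuousLinearMap.id ℂ (lid e) : lid e →L[ℂ] lid e) :
          lid e → lid e) =
        ((π (b n - b k) - (t n - t k) • ContinuousLinearMap.id ℂ (lid e) :
          lid e →L[ℂ] lid e) : lid e → lid e) := by
      funext z
      simp only [Pi.sub_apply, map_sub, sub_apply, smul_apply, id_apply, sub_smul]
      abel
    rwa [h3] at h2
  have hcau : CauchySeq t := by
    have h1 : CauchySeq b := hba.cauchySeq
    rw [Metric.cauchySeq_iff] at h1 ⊢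
    intro ε hε
    obtain ⟨N, hN⟩ := h1 ε hε
    refine ⟨N, fun n hn k hk => ?_⟩
    have h2 := hN n hn k hk
    rw [dist_eq_norm] at h2 ⊢
    exact lt_of_le_of_lt (htt n k) h2
  obtain ⟨t₀, ht₀⟩ := cauchySeq_tendsto_of_complete hcau
  have hlim : Tendsto (fun n => π (b n) - t n • ContinuousLinearMap.id ℂ (lid e)) atTop
      (𝓝 (π a - t₀ • ContinuousLinearMap.id ℂ (lid e))) :=
    ((π.continuous.tendsto a).comp hba).sub (ht₀.smul_const _)
  have hcpt : IsCompactOperator (π a - t₀ • ContinuousLinearMap.id ℂ (lid e)) :=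
    isCompactOperator_of_tendsto hlim (Eventually.of_forall hbt')
  obtain ⟨K, hK, hKs⟩ := (isCompactOperator_iff_image_closedBall_subset_compact
      ((π a - t₀ • ContinuousLinearMap.id ℂ (lid e) : lid e →L[ℂ] lid e) : lid e →ₗ[ℂ] lid e)
      one_pos).1 hcpt
  refine ⟨t₀, (Subtype.val : lid e → A) '' K, hK.image continuous_subtype_val, fun y hy => ?_⟩
  refine ⟨(π a - t₀ • ContinuousLinearMap.id ℂ (lid e) : lid e →L[ℂ] lid e) ⟨y * e, y, rfl⟩,
    hKs ⟨⟨y * e, y, rfl⟩, ?_, rfl⟩, ?_⟩
  · exact mem_closedBall_zero_iff.2 hy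
  · show ((π a ⟨y * e, y, rfl⟩ : lid e) : A) - t₀ • (y * e) = _
    rw [hπ]

/-- Module `ie` (T1g: the proof in `Results/MP_a77edb_an/CompactAction.lean`). -/
theorem t1g {e : A} (hmin : MinIdem e) (hinf : ¬ FiniteDimensional ℂ (lid e))
    (hfun : GivesFunctionals e) (hc : ∀ a : A, ∃ t : ℂ, CompactOn e a t) : ¬ Vanish A := by
  intro hV
  have hcomp : CompleteSpace (lid e) := (isClosed_lid hmin.2.1).completeSpace_coe
  have hmem : ∀ x : lid e, (x : A) * e = x := by
    rintro ⟨x, y, rfl⟩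
    show y * e * e = y * e
    rw [mul_assoc, hmin.2.1]
  obtain ⟨D⟩ := alg_data e hmin.1 hmin.2.1 hmin.2.2 hinf
    (fun φ => by
      obtain ⟨g, hg, -⟩ := exists_extension_norm_eq (lid e) φ
      obtain ⟨u, hu⟩ := hfun g
      refine ⟨u, fun x => ?_⟩
      have h1 := hu x
      rw [hmem x, hg x] at h1
      exact h1)
    (fun a => by
      obtain ⟨t, K, hK, h⟩ := hc a
      have hm : ∀ x : lid e, a * (x : A) - t • (x : A) ∈ lid e := by
        rintro ⟨x, y, rfl⟩
        refine ⟨a * y - t • y, ?_⟩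
        show (a * y - t • y) * e = a * (y * e) - t • (y * e)
        rw [sub_mul, mul_assoc, smul_mul_assoc]
      let T : lid e →L[ℂ] lid e :=
        (((ContinuousLinearMap.mul ℂ A a) - t • ContinuousLinearMap.id ℂ A).comp
          (lid e).subtypeL).codRestrict (lid e) hm
      refine ⟨t, T, ?_, fun x => rfl⟩
      have hcl : IsClosed (lid e : Set A) := isClosed_lid hmin.2.1
      refine ⟨(Subtype.val : lid e → A) ⁻¹' K,
        hcl.isClosedEmbedding_subtypeVal.isCompact_preimage hK, ?_⟩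
      refine Filter.mem_of_superset (Metric.closedBall_mem_nhds (0 : lid e) one_pos) fun x hx => ?_
      show a * (x : A) - t • (x : A) ∈ K
      have h1 := h x
      rw [hmem x] at h1
      exact h1 (by simpa using hx))
  obtain ⟨G⟩ := D.exists_game hV
  exact no_game hinf G

/-- T-int. -/
theorem int_main {κ : Type v} (e : κ → A) (hmin : ∀ k, MinIdem (e k))
    (horth : ∀ k l, k ≠ l → ∀ a : A, e k * a * e l = 0) (hfun : ∀ k, GivesFunctionals (e k))
    (hinj : ∀ k, FiniteDimensional ℂ (lid (e k)) → Faithful (e k))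
    (hinf : Infinite κ ∨ ∃ k, ¬ FiniteDimensional ℂ (lid (e k))) (hd : DenseScalar e) :
    ¬ Vanish A := by
  intro hV
  by_cases h : ∃ k, ¬ FiniteDimensional ℂ (lid (e k))
  · obtain ⟨k, hk⟩ := h
    exact t1g (hmin k) hk (hfun k) (closed_scalar (hmin k) hk fun a ε hε => by
      obtain ⟨b, t, h1, h2, -⟩ := hd a ε hε
      exact ⟨b, t, h1, h2 k⟩) hV
  · have hκ : Infinite κ := hinf.resolve_right h
    push Not at h
    obtain ⟨B⟩ := exists_blkS e hmin horth h hfun (fun k => hinj k (h k)) hd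
    exact no_blocksS B hV

end Pool.Agent.FinBlk
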