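import Pool.Agent.FinBlk.Fam

/-!
# The map `ρ` (T2, text 2)
-/

set_option autoImplicit false
set_option linter.unusedSectionVars false

noncomputable section

namespace Pool.Agent.FinBlk

universe u v

open ContinuousLinearMap Filter Topology
open Pool.Agent.MP_a77edb_an Pool.Agent.CptDim

variable {A : Type u} [NonUnitalNormedRing A] [NormedSpace ℂ A] [IsScalarTower ℂ A A]
  [SMulCommClass ℂ A A] [CompleteSpace A]

/-- A Banach space with zero action. -/
private def fbl_ra_zero (A : Type u) [NonUnitalNormedRing A] [NormedSpace ℂ A]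
    [CompleteSpace A] : LeftMod A where
  carrier := A
  act := 0
  act_mul := fun a b x => by simp

/-- The regular module. -/
private def fbl_ra_reg (A : Type u) [NonUnitalNormedRing A] [NormedSpace ℂ A]
    [IsScalarTower ℂ A A] [SMulCommClass ℂ A A] [CompleteSpace A] : LeftMod A where
  carrier := A
  act := ContinuousLinearMap.mul ℂ A
  act_mul := fun a b x => mul_assoc a b x

/-- Module `ra`: `X = A` with the zero action, `N = A`, `W = CS.twMod (mul)`, `D₁ a x = φ x • a`,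
`D₂ a n = a ⊗ n`, `ρ b = - ψ b x₀`. -/
theorem exists_rho₀ (hV : Vanish A) (φ : A →L[ℂ] ℂ) (x₀ : A) (h : φ x₀ = 1) :
    ∃ ρ : A →L[ℂ] PT A A, ∀ a b, ρ (a * b) = CS.lact a (ρ b) +
      PT.tmul a (b - CS.sig (ContinuousLinearMap.mul ℂ A) (ρ b)) := by
  let D₁ : A →L[ℂ] A →L[ℂ] A := smulRightL ℂ A A φ
  let D₂ : A →L[ℂ] A →L[ℂ] PT A A := PT.tmul
  have hmul : ∀ a b z : A, ContinuousLinearMap.mul ℂ A (a * b) z =
      ContinuousLinearMap.mul ℂ A a (ContinuousLinearMap.mul ℂ A b z) := fun a b z =>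
    mul_assoc a b z
  have hD₁ : ∀ a b x, D₁ (a * b) x = a * D₁ b x + D₁ a 0 := fun a b x => by
    show φ x • (a * b) = a * (φ x • b) + φ 0 • a
    rw [map_zero, zero_smul, add_zero, mul_smul_comm]
  have hD₂ : ∀ a b n, D₂ (a * b) n = (CS.lact a (D₂ b n) -
      PT.tmul a (CS.sig (ContinuousLinearMap.mul ℂ A) (D₂ b n))) + D₂ a (b * n) :=
    fun a b n => by
      show PT.tmul (a * b) n = (CS.lact a (PT.tmul b n) -
        PT.tmul a (CS.sig (ContinuousLinearMap.mul ℂ A) (PT.tmul b n))) + PT.tmul a (b * n)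
      rw [CS.lact_tmul, CS.sig_tmul, ContinuousLinearMap.mul_apply', sub_add_cancel]
  obtain ⟨ψ', hψ⟩ := hV (fbl_ra_zero A) (fbl_ra_reg A)
    (CS.twMod (ContinuousLinearMap.mul ℂ A) hmul) D₁ D₂ hD₁ hD₂
  let ψ : A →L[ℂ] A →L[ℂ] PT A A := ψ'
  have hψ' : ∀ a b y, (PT.tmul a (φ y • b) : PT A A) =
      (CS.lact a (ψ b y) - PT.tmul a (CS.sig (ContinuousLinearMap.mul ℂ A) (ψ b y))) -
        ψ (a * b) y + ψ a 0 := hψ
  refine ⟨-ψ.flip x₀, fun a b => ?_⟩
  have h1 := hψ' a b x₀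
  rw [h, one_smul, map_zero, add_zero] at h1
  rw [ContinuousLinearMap.neg_apply, ContinuousLinearMap.neg_apply,
    ContinuousLinearMap.flip_apply, ContinuousLinearMap.flip_apply, map_sub, h1, map_neg, map_neg,
    map_neg]
  abel

/-- Module `rb`. -/
theorem exists_rho (hV : Vanish A) (φ : A →L[ℂ] ℂ) (x₀ : A) (h : φ x₀ = 1) :
    ∃ (ρ : A →L[ℂ] PT A A) (v : A →L[ℂ] A),
      (∀ a b, ρ (a * b) = CS.lact a (ρ b) + PT.tmul a (v b)) ∧ (∀ a b, v (a * b) = 0) ∧
      ∀ b, CS.sig (ContinuousLinearMap.mul ℂ A) (ρ b) + v b = b := by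
  obtain ⟨ρ, hρ⟩ := exists_rho₀ hV φ x₀ h
  let v : A →L[ℂ] A := ContinuousLinearMap.id ℂ A -
    (CS.sig (ContinuousLinearMap.mul ℂ A)).comp ρ
  have hv : ∀ b, v b = b - CS.sig (ContinuousLinearMap.mul ℂ A) (ρ b) := fun b => rfl
  have hmul : ∀ a b z : A, ContinuousLinearMap.mul ℂ A (a * b) z =
      ContinuousLinearMap.mul ℂ A a (ContinuousLinearMap.mul ℂ A b z) := fun a b z =>
    mul_assoc a b z
  refine ⟨ρ, v, fun a b => ?_, fun a b => ?_, fun b => ?_⟩
  · rw [hv]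
    exact hρ a b
  · rw [hv, hρ, map_add, CS.sig_lact _ hmul, CS.sig_tmul, map_sub,
      ContinuousLinearMap.mul_apply', ContinuousLinearMap.mul_apply']
    abel
  · rw [hv]
    abel

end Pool.Agent.FinBlk
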