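import Pool.Agent.FinBlk.Bai
import Pool.Agent.FinBlk.Rho

/-!
# The elements `S_k` (T2, text 3)
-/

set_option autoImplicit false
set_option linter.unusedSectionVars false

noncomputable section

namespace Pool.Agent.FinBlk

universe u v

open ContinuousLinearMap Filter Topology
open Pool.Agent.MP_a77edb_an Pool.Agent.CptDim

variable {A : Type u} [NonUnitalNormedRing A] [NormedSpace ℂ A] [IsScalarTower ℂ A A]
  [SMulCommClass ℂ A A] [CompleteSpace A]

variable (A) in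
/-- All that is used in text 3 and 4. -/
structure OData extends Blk A where
  /-- the family of the modules `B(V_k)` -/
  F : Fam A toBlk.Y
  F_act : ∀ k a (T : toBlk.Y k), F.act k a T = (toBlk.pi k a).comp T
  F_x : ∀ k (T : toBlk.Y k), F.x k T = toBlk.tau k T
  /-- the fibres -/
  D : FibD F
  /-- the map `ρ` -/
  ρ : A →L[ℂ] PT A A
  /-- the correction -/
  v : A →L[ℂ] A
  ρ_mul : ∀ a b, ρ (a * b) = CS.lact a (ρ b) + PT.tmul a (v b)
  v_mul : ∀ a b, v (a * b) = 0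
  sig_ρ : ∀ b, CS.sig (ContinuousLinearMap.mul ℂ A) (ρ b) + v b = b
  /-- bound of the approximate identity -/
  K₁ : ℝ
  K₁_nonneg : 0 ≤ K₁
  bai : ∀ F : Finset ℕ, ∃ c : A, ‖c‖ ≤ K₁ ∧ ∀ i ∈ F, p i * c = p i

/-- Module `oz`. -/
theorem exists_odata (B : Blk A) (hV : Vanish A) : Nonempty (OData A) := by
  obtain ⟨F, hF1, hF2⟩ := B.exists_fam
  obtain ⟨D⟩ := exists_fibD F hV
  obtain ⟨ρ, v, h1, h2, h3⟩ := exists_rho hV (B.t 0) (B.p 0) (B.t_p 0)
  obtain ⟨K₁, hK, hc⟩ := B.exists_bai hV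
  exact ⟨{ toBlk := B
           F := F
           F_act := hF1
           F_x := hF2
           D := D
           ρ := ρ
           v := v
           ρ_mul := h1
           v_mul := h2
           sig_ρ := h3
           K₁ := K₁
           K₁_nonneg := hK
           bai := hc }⟩

namespace OData

variable (O : OData A)

/-- `Ω_k (a' ⊗ b) = Ψ_k(b)(π_k a')`. -/
def Om (k : ℕ) : PT A A →L[ℂ] A := PT.lift ((O.D.Ψ k).flip.comp (O.pi k))

theorem Om_tmul (k : ℕ) (a' b : A) : O.Om k (PT.tmul a' b) = O.D.Ψ k b (O.pi k a') := by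
  rw [Om, PT.lift_tmul]
  rfl

/-- `σ' (a' ⊗ b) = b a'`. -/
def sgf : PT A A →L[ℂ] A := PT.lift (ContinuousLinearMap.mul ℂ A).flip

theorem sgf_tmul (a' b : A) : sgf (PT.tmul a' b : PT A A) = b * a' := by
  rw [sgf, PT.lift_tmul]
  rfl

/-- The identity of `V_k`. -/
abbrev one (k : ℕ) : O.Y k := ContinuousLinearMap.id ℂ (O.V k)

/-- `ω_k(b) = Ω_k(ρ b) + Ψ_k(v b)(1)`. -/
def om (k : ℕ) (b : A) : A := O.Om k (O.ρ b) + O.D.Ψ k (O.v b) (O.one k)

/-- `S_k = ω_k(p_k)`. -/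
def S (k : ℕ) : A := O.om k (O.p k)

/-- Module `oa`: `Ω_k (p_k T) = Ω_k T`. -/
theorem Om_p (k : ℕ) (T : PT A A) : O.Om k (CS.lact (O.p k) T) = O.Om k T := by
  have h : (O.Om k).comp (CS.lact (O.p k)) = O.Om k := by
    refine PT.ext' fun a' b => ?_
    rw [comp_apply, CS.lact_tmul, Om_tmul, Om_tmul, O.pi_p_mul]
  exact DFunLike.congr_fun h T

/-- Module `oa`. -/
theorem om_p_mul (k : ℕ) (b : A) : O.om k (O.p k * b) = O.om k b := by
  rw [om, om, O.ρ_mul, O.v_mul, map_add, O.Om_p, Om_tmul, O.pi_p, map_zero,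
    ContinuousLinearMap.zero_apply, add_zero]

/-- Module `oa`. -/
theorem om_eq_S {k : ℕ} {c : A} (h : O.p k * c = O.p k) : O.om k c = O.S k := by
  rw [S, ← h, O.om_p_mul]

/-- Module `ob`: `t_k (σ' T) = t_k (σ T)`. -/
theorem t_sgf (k : ℕ) (T : PT A A) :
    O.t k (sgf T) = O.t k (CS.sig (ContinuousLinearMap.mul ℂ A) T) := by
  have h : (O.t k).comp sgf = (O.t k).comp (CS.sig (ContinuousLinearMap.mul ℂ A)) := by
    refine PT.ext' fun a' b => ?_
    rw [comp_apply, comp_apply, sgf_tmul, CS.sig_tmul, ContinuousLinearMap.mul_apply', O.t_comm]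
  exact DFunLike.congr_fun h T

/-- Module `oc`: `two` for tensors. -/
theorem two_T (k : ℕ) (a : A) (T : PT A A) :
    (O.t k (sgf T)) • a = a * O.Om k T - O.Om k (PT.mapR (ContinuousLinearMap.mul ℂ A a) T) +
      O.D.Ψ k a (O.pi k (sgf T)) := by
  have h : ((O.t k).comp sgf).smulRight a =
      (ContinuousLinearMap.mul ℂ A a).comp (O.Om k) -
        (O.Om k).comp (PT.mapR (ContinuousLinearMap.mul ℂ A a)) +
        (O.D.Ψ k a).comp ((O.pi k).comp sgf) := by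
    refine PT.ext' fun a' b => ?_
    have h1 := O.D.two k a b (O.pi k a')
    rw [O.F_act, ← O.pi_mul, O.F_x] at h1
    rw [smulRight_apply, comp_apply, sgf_tmul, add_apply, sub_apply, comp_apply, comp_apply,
      comp_apply, comp_apply, sgf_tmul, PT.mapR_tmul, Om_tmul, Om_tmul,
      ContinuousLinearMap.mul_apply', ContinuousLinearMap.mul_apply', O.t_apply]
    exact h1
  have h2 := DFunLike.congr_fun h T
  rw [smulRight_apply, comp_apply, add_apply, sub_apply, comp_apply, comp_apply, comp_apply,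
    comp_apply, ContinuousLinearMap.mul_apply'] at h2
  exact h2

/-- Module `od`: the identity of text 3. -/
theorem star (k : ℕ) (a c : A) :
    (O.t k c) • a = a * O.om k c -
      (O.Om k (PT.mapR (ContinuousLinearMap.mul ℂ A a) (O.ρ c)) +
        O.D.Ψ k (a * O.v c) (O.one k)) +
      O.D.Ψ k a (O.pi k (sgf (O.ρ c) + O.v c)) := by
  have h1 := O.two_T k a (O.ρ c)
  have h2 := O.D.two k a (O.v c) (O.one k)
  rw [O.F_act, O.F_x, ContinuousLinearMap.comp_id, ← O.t_apply] at h2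
  have h3 : O.t k c = O.t k (sgf (O.ρ c)) + O.t k (O.v c) := by
    rw [O.t_sgf, ← map_add, O.sig_ρ]
  rw [h3, add_smul, h1, h2, om, mul_add, map_add, map_add]
  abel

/-- Module `oe`: coordinates on the block `p_i A`. -/
theorem exists_coord (i : ℕ) : ∃ (m : ℕ) (e : ℕ → A) (φ : ℕ → (A →L[ℂ] ℂ)), ∀ b,
    O.p i * b = ∑ s ∈ Finset.range m, φ s b • e s := by
  set n := Module.finrank ℂ (O.V i) with hn
  let bs := Module.finBasis ℂ (O.V i)
  let L : A →L[ℂ] O.V i := (ContinuousLinearMap.mul ℂ A (O.p i)).codRestrict (vp (O.p i))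
    (fun b => by
      show O.p i * (O.p i * b) = O.p i * b
      rw [← mul_assoc, O.p_idem])
  refine ⟨n, fun s => if h : s < n then ((bs ⟨s, h⟩ : O.V i) : A) else 0,
    fun s => if h : s < n then (LinearMap.toContinuousLinearMap (bs.coord ⟨s, h⟩)).comp L else 0,
    fun b => ?_⟩
  rw [Finset.sum_range]
  have h1 : (L b : A) = O.p i * b := rfl
  rw [← h1]
  have h2 := congrArg (vp (O.p i)).subtype (bs.sum_repr (L b))
  rw [map_sum] at h2
  refine Eq.trans h2.symm (Finset.sum_congr rfl fun s _ => ?_)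
  simp

/-- Module `of` (from `exists_coord`; `PT.slice`). -/
theorem exists_coordT (i : ℕ) : ∃ (m : ℕ) (e : ℕ → A) (φ : ℕ → (A →L[ℂ] ℂ)),
    (∀ b, O.p i * b = ∑ s ∈ Finset.range m, φ s b • e s) ∧ ∀ k (T : PT A A),
    O.Om k (PT.mapR (ContinuousLinearMap.mul ℂ A (O.p i)) T) =
      ∑ s ∈ Finset.range m, O.D.Ψ k (e s) (O.pi k (PT.slice (φ s) T)) := by
  obtain ⟨m, e, φ, h⟩ := O.exists_coord i
  refine ⟨m, e, φ, h, fun k T => ?_⟩
  have h1 : (O.Om k).comp (PT.mapR (ContinuousLinearMap.mul ℂ A (O.p i))) =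
      ∑ s ∈ Finset.range m, (O.D.Ψ k (e s)).comp ((O.pi k).comp (PT.slice (φ s))) := by
    refine PT.ext' fun a' b => ?_
    rw [comp_apply, PT.mapR_tmul, Om_tmul, ContinuousLinearMap.mul_apply', h, map_sum,
      ContinuousLinearMap.sum_apply, ContinuousLinearMap.sum_apply]
    refine Finset.sum_congr rfl fun s _ => ?_
    rw [comp_apply, comp_apply, PT.slice_tmul, map_smul, map_smul, map_smul, smul_apply]
  have h2 := DFunLike.congr_fun h1 T
  rw [comp_apply, ContinuousLinearMap.sum_apply] at h2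
  exact h2

/-- the index of the terms of module `og` -/
private theorem fbl_og_norm_sgf (T : PT A A) : ‖sgf T‖ ≤ ‖T‖ := by
  refine (PT.norm_lift_apply_le _ T).trans ?_
  refine mul_le_of_le_one_left (norm_nonneg _) ?_
  refine ContinuousLinearMap.opNorm_le_bound₂ _ zero_le_one fun e z => ?_
  show ‖z * e‖ ≤ _
  rw [one_mul, mul_comm ‖e‖]
  exact norm_mul_le _ _

/-- Module `og`: from `star`, `exists_coordT`, `D.small` (the bounded families `π_k(φ_s (ρ c_k))`,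
`1`, `π_k(σ' (ρ c_k) + v c_k)` with `c_k` from `bai {k}`). -/
theorem exists_small_p (F : Finset ℕ) (ε : ℝ) (hε : 0 < ε) (n₀ : ℕ) :
    ∃ k, n₀ ≤ k ∧ ∀ i ∈ F, ‖O.p i - O.p i * O.S k‖ < ε := by
  classical
  choose m e φ hφ hT using fun i => O.exists_coordT i
  choose c hc1 hc2 using fun k : ℕ => O.bai {k}
  have hc3 : ∀ k, O.p k * c k = O.p k := fun k => hc2 k k (Finset.mem_singleton_self k)
  -- the exact identity
  have key : ∀ i k, O.p i - O.p i * O.S k =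
      -((∑ s ∈ Finset.range (m i), O.D.Ψ k (e i s) (O.pi k (PT.slice (φ i s) (O.ρ (c k))))) +
        ∑ s ∈ Finset.range (m i), O.D.Ψ k (e i s) ((φ i s (O.v (c k))) • O.one k)) +
      O.D.Ψ k (O.p i) (O.pi k (sgf (O.ρ (c k)) + O.v (c k))) := by
    intro i k
    have h1 := O.star k (O.p i) (c k)
    have h2 : O.t k (c k) = 1 := by
      rw [← O.t_p_mul, hc3, O.t_p]
    have h3 : O.D.Ψ k (O.p i * O.v (c k)) (O.one k) =
        ∑ s ∈ Finset.range (m i), O.D.Ψ k (e i s) ((φ i s (O.v (c k))) • O.one k) := by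
      rw [hφ, map_sum, sum_apply]
      refine Finset.sum_congr rfl fun s _ => ?_
      rw [map_smul, map_smul, smul_apply]
    rw [h2, one_smul, O.om_eq_S (hc3 k), hT, h3] at h1
    rw [sub_eq_iff_eq_add]
    nth_rewrite 1 [h1]
    abel
  -- the bounded families
  obtain ⟨Cφ, hCφ⟩ : ∃ C : ℝ, ∀ i ∈ F, ∀ s ∈ Finset.range (m i), ‖φ i s‖ ≤ C := by
    refine ⟨∑ i ∈ F, ∑ s ∈ Finset.range (m i), ‖φ i s‖, fun i hi s hs => ?_⟩
    have h1 := Finset.single_le_sum (f := fun s => ‖φ i s‖) (fun _ _ => norm_nonneg _) hs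
    have h2 := Finset.single_le_sum (f := fun i => ∑ s ∈ Finset.range (m i), ‖φ i s‖)
      (fun _ _ => Finset.sum_nonneg fun _ _ => norm_nonneg _) hi
    exact h1.trans h2
  set C : ℝ := |Cφ| + 1 with hCdef
  have hC : 0 ≤ C := by positivity
  have hCφ' : ∀ i ∈ F, ∀ s ∈ Finset.range (m i), ‖φ i s‖ ≤ C := fun i hi s hs =>
    (hCφ i hi s hs).trans (by rw [hCdef]; linarith [le_abs_self Cφ])
  set R : ℝ := (‖O.ρ‖ + ‖O.v‖) * O.K₁ with hR
  have hR0 : 0 ≤ R := by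
    have := O.K₁_nonneg
    positivity
  have hρ : ∀ k, ‖O.ρ (c k)‖ ≤ ‖O.ρ‖ * O.K₁ := fun k =>
    (O.ρ.le_opNorm _).trans (mul_le_mul_of_nonneg_left (hc1 k) (norm_nonneg _))
  have hv : ∀ k, ‖O.v (c k)‖ ≤ ‖O.v‖ * O.K₁ := fun k =>
    (O.v.le_opNorm _).trans (mul_le_mul_of_nonneg_left (hc1 k) (norm_nonneg _))
  have hK := O.K₁_nonneg
  have hρR : ∀ k, ‖O.ρ (c k)‖ ≤ R := fun k => (hρ k).trans (by
    rw [hR]; nlinarith [norm_nonneg O.v, mul_nonneg (norm_nonneg O.v) hK])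
  have hvR : ∀ k, ‖O.v (c k)‖ ≤ R := fun k => (hv k).trans (by
    rw [hR]; nlinarith [norm_nonneg O.ρ, mul_nonneg (norm_nonneg O.ρ) hK])
  have hρvR : ∀ k, ‖sgf (O.ρ (c k)) + O.v (c k)‖ ≤ R := fun k => by
    refine (norm_add_le _ _).trans ?_
    have h1 := (fbl_og_norm_sgf (O.ρ (c k))).trans (hρ k)
    have h2 := hv k
    rw [hR, add_mul]
    linarith
  have hone : ∀ k, ‖O.one k‖ ≤ 1 := fun k => ContinuousLinearMap.norm_id_le
  -- index type: `ℕ × ℕ × Fin 3`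
  let a : ℕ × ℕ × ℕ → A := fun t => if t.2.2 = 2 then O.p t.1 else e t.1 t.2.1
  let y : ℕ × ℕ × ℕ → ∀ k, O.Y k := fun t k =>
    if t.1 ∈ F ∧ t.2.1 ∈ Finset.range (m t.1) then
      (if t.2.2 = 0 then O.pi k (PT.slice (φ t.1 t.2.1) (O.ρ (c k))) else
        if t.2.2 = 1 then (φ t.1 t.2.1 (O.v (c k))) • O.one k else
          O.pi k (sgf (O.ρ (c k)) + O.v (c k)))
    else O.pi k (sgf (O.ρ (c k)) + O.v (c k))
  have hC1 : 1 ≤ C := by rw [hCdef]; linarith [abs_nonneg Cφ]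
  have hlast : ∀ k, ‖O.pi k (sgf (O.ρ (c k)) + O.v (c k))‖ ≤ C * R := fun k =>
    ((O.norm_pi_le k _).trans (hρvR k)).trans (le_mul_of_one_le_left hR0 hC1)
  have hy : ∀ t k, ‖y t k‖ ≤ C * R := by
    rintro ⟨i, s, z⟩ k
    by_cases h1 : i ∈ F ∧ s ∈ Finset.range (m i)
    · by_cases h2 : z = 0
      · have e1 : y (i, s, z) k = O.pi k (PT.slice (φ i s) (O.ρ (c k))) := by
          simp only [y, if_pos h1, if_pos h2]
        rw [e1]
        refine (O.norm_pi_le k _).trans ((PT.norm_slice_apply_le _ _).trans ?_)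
        exact mul_le_mul (hCφ' i h1.1 s h1.2) (hρR k) (norm_nonneg _) hC
      · by_cases h3 : z = 1
        · have e1 : y (i, s, z) k = (φ i s (O.v (c k))) • O.one k := by
            simp only [y, if_pos h1, if_neg h2, if_pos h3]
          rw [e1]
          have h4 : ‖φ i s (O.v (c k))‖ ≤ C * R := ((φ i s).le_opNorm _).trans
            (mul_le_mul (hCφ' i h1.1 s h1.2) (hvR k) (norm_nonneg _) hC)
          refine ContinuousLinearMap.opNorm_le_bound _ (by positivity) fun w => ?_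
          show ‖(φ i s (O.v (c k))) • w‖ ≤ _
          rw [norm_smul]
          exact mul_le_mul_of_nonneg_right h4 (norm_nonneg _)
        · have e1 : y (i, s, z) k = O.pi k (sgf (O.ρ (c k)) + O.v (c k)) := by
            simp only [y, if_pos h1, if_neg h2, if_neg h3]
          rw [e1]
          exact hlast k
    · have e1 : y (i, s, z) k = O.pi k (sgf (O.ρ (c k)) + O.v (c k)) := by
        simp only [y, if_neg h1]
      rw [e1]
      exact hlast k
  -- the number of terms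
  obtain ⟨M, hM⟩ : ∃ M : ℕ, ∀ i ∈ F, m i ≤ M :=
    ⟨∑ i ∈ F, m i, fun i hi => Finset.single_le_sum (f := m) (fun _ _ => Nat.zero_le _) hi⟩
  set ε' : ℝ := ε / (2 * M + 2) with hε'
  have hε'0 : 0 < ε' := by positivity
  obtain ⟨k, hk, hsm⟩ := O.D.small (ℕ × ℕ × ℕ)
    (F ×ˢ (Finset.range (M + 1)) ×ˢ (Finset.range 3)) a y (C * R) (by positivity) hy ε' hε'0 n₀
  refine ⟨k, hk, fun i hi => ?_⟩
  rw [key i k]
  have hs0 : ∀ s ∈ Finset.range (m i),
      ‖O.D.Ψ k (e i s) (O.pi k (PT.slice (φ i s) (O.ρ (c k))))‖ ≤ ε' := fun s hs => by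
    have h1 := hsm (i, s, 0) (Finset.mem_product.2 ⟨hi, Finset.mem_product.2
      ⟨Finset.mem_range.2 (by have := Finset.mem_range.1 hs; have := hM i hi; show s < M + 1; omega),
        by simp⟩⟩)
    have e1 : y (i, s, 0) k = O.pi k (PT.slice (φ i s) (O.ρ (c k))) := by
      simp only [y, if_pos (And.intro hi hs), if_true]
    have e2 : a (i, s, 0) = e i s := by simp [a]
    rw [e1, e2] at h1
    exact h1.le
  have hs1 : ∀ s ∈ Finset.range (m i),
      ‖O.D.Ψ k (e i s) ((φ i s (O.v (c k))) • O.one k)‖ ≤ ε' := fun s hs => by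
    have h1 := hsm (i, s, 1) (Finset.mem_product.2 ⟨hi, Finset.mem_product.2
      ⟨Finset.mem_range.2 (by have := Finset.mem_range.1 hs; have := hM i hi; show s < M + 1; omega),
        by simp⟩⟩)
    have e1 : y (i, s, 1) k = (φ i s (O.v (c k))) • O.one k := by
      simp only [y, if_pos (And.intro hi hs), if_true, one_ne_zero, if_false]
    have e2 : a (i, s, 1) = e i s := by simp [a]
    rw [e1, e2] at h1
    exact h1.le
  have hs2 : ‖O.D.Ψ k (O.p i) (O.pi k (sgf (O.ρ (c k)) + O.v (c k)))‖ < ε' := by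
    have h1 := hsm (i, M, 2) (Finset.mem_product.2 ⟨hi, Finset.mem_product.2
      ⟨Finset.mem_range.2 (Nat.lt_succ_self M), by simp⟩⟩)
    have e1 : y (i, M, 2) k = O.pi k (sgf (O.ρ (c k)) + O.v (c k)) := by
      have : ¬ (i ∈ F ∧ M ∈ Finset.range (m i)) := fun h => by
        have h2 := Finset.mem_range.1 h.2
        have h3 := hM i hi
        omega
      simp only [y, if_neg this]
    have e2 : a (i, M, 2) = O.p i := by simp [a]
    rw [e1, e2] at h1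
    exact h1
  have hsum0 := norm_sum_le_of_le _ hs0
  have hsum1 := norm_sum_le_of_le _ hs1
  rw [Finset.sum_const, Finset.card_range, nsmul_eq_mul] at hsum0 hsum1
  have hmi : (m i : ℝ) * ε' ≤ M * ε' :=
    mul_le_mul_of_nonneg_right (by exact_mod_cast hM i hi) hε'0.le
  refine lt_of_le_of_lt ((norm_add_le _ _).trans (add_le_add_left
    ((norm_neg _).le.trans ((norm_add_le _ _).trans (add_le_add hsum0 hsum1))) _)) ?_
  have h5 : (2 * (M : ℝ) + 1) * ε' < ε := by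
    rw [hε', mul_div_assoc', div_lt_iff₀ (by positivity)]
    nlinarith
  nlinarith

/-- Module `oh`: apply `t_i`. -/
theorem exists_node (F : Finset ℕ) (ε : ℝ) (hε : 0 < ε) (n₀ : ℕ) :
    ∃ k, n₀ ≤ k ∧ ∀ i ∈ F, ‖1 - O.t i (O.S k)‖ < ε := by
  obtain ⟨k, hk, hk'⟩ := O.exists_small_p F ε hε n₀
  refine ⟨k, hk, fun i hi => ?_⟩
  have h1 : O.t i (O.p i - O.p i * O.S k) = 1 - O.t i (O.S k) := by
    rw [map_sub, O.toBlk0.t_p, O.toBlk0.t_p_mul]
  rw [← h1]
  exact (O.toBlk0.norm_t_le i _).trans_lt (hk' i hi)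

/-- Module `oi`: the functional `T ↦ ∑ j, G_j (Ω_{κ j} T)` is bounded by `K w`. -/
theorem sum_Om_le (J : Finset ℕ) (κ : ℕ → ℕ) (hκ : Set.InjOn κ J) (G : ℕ → (A →L[ℂ] ℂ)) (w : ℝ)
    (hw : 0 ≤ w) (hG : ∀ a, ∑ j ∈ J, ‖G j a‖ ≤ w * ‖a‖) (T : PT A A) :
    ‖∑ j ∈ J, G j (O.Om (κ j) T)‖ ≤ O.D.K * w * ‖T‖ := by
  let β : A →L[ℂ] A →L[ℂ] ℂ := ∑ j ∈ J,
    (compL ℂ A A ℂ (G j)).comp ((O.D.Ψ (κ j)).flip.comp (O.pi (κ j)))
  have hβ : ∀ a' b, β a' b = ∑ j ∈ J, G j (O.D.Ψ (κ j) b (O.pi (κ j) a')) := fun a' b => by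
    show (∑ j ∈ J, (compL ℂ A A ℂ (G j)).comp ((O.D.Ψ (κ j)).flip.comp (O.pi (κ j))) :
      A →L[ℂ] A →L[ℂ] ℂ) a' b = _
    rw [sum_apply, sum_apply]
    rfl
  have hβn : ∀ a' b, ‖β a' b‖ ≤ O.D.K * w * ‖a'‖ * ‖b‖ := fun a' b => by
    rw [hβ]
    refine (O.D.bone J κ hκ (fun k => O.pi k a') ‖a'‖ (norm_nonneg _)
      (fun k => O.toBlk0.norm_pi_le k a') G w hw hG b).trans (le_of_eq (by ring))
  have hΦ : (PT.lift β : PT A A →L[ℂ] ℂ) = ∑ j ∈ J, (G j).comp (O.Om (κ j)) := by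
    refine PT.ext' fun a' b => ?_
    rw [PT.lift_tmul, hβ, sum_apply]
    refine Finset.sum_congr rfl fun j _ => ?_
    rw [ContinuousLinearMap.comp_apply, O.Om_tmul]
  have h1 : ∑ j ∈ J, G j (O.Om (κ j) T) = PT.lift β T := by
    rw [hΦ, sum_apply]
    rfl
  rw [h1]
  refine (PT.norm_lift_apply_le _ T).trans ?_
  refine mul_le_mul_of_nonneg_right ?_ (norm_nonneg _)
  exact ContinuousLinearMap.opNorm_le_bound₂ _ (mul_nonneg O.D.K_nonneg hw) hβn

/-- Module `oj`. -/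
theorem sum_S_le (J : Finset ℕ) (κ : ℕ → ℕ) (hκ : Set.InjOn κ J) (G : ℕ → (A →L[ℂ] ℂ)) (w : ℝ)
    (hw : 0 ≤ w) (hG : ∀ a, ∑ j ∈ J, ‖G j a‖ ≤ w * ‖a‖) :
    ‖∑ j ∈ J, G j (O.S (κ j))‖ ≤ O.D.K * (‖O.ρ‖ + ‖O.v‖) * O.K₁ * w := by
  classical
  obtain ⟨c, hc, hc'⟩ := O.bai (J.image κ)
  have h1 : ∑ j ∈ J, G j (O.S (κ j)) = ∑ j ∈ J, G j (O.Om (κ j) (O.ρ c)) +
      ∑ j ∈ J, G j (O.D.Ψ (κ j) (O.v c) (O.one (κ j))) := by
    rw [← Finset.sum_add_distrib]
    refine Finset.sum_congr rfl fun j hj => ?_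
    rw [← O.om_eq_S (hc' (κ j) (Finset.mem_image_of_mem κ hj)), om, map_add]
  have hid : ∀ k, ‖O.one k‖ ≤ 1 := fun k => ContinuousLinearMap.norm_id_le
  have h2 := O.sum_Om_le J κ hκ G w hw hG (O.ρ c)
  have h3 := O.D.bone J κ hκ (fun k => O.one k) 1 zero_le_one hid G w hw hG (O.v c)
  have hK := O.D.K_nonneg
  have hρ : ‖O.ρ c‖ ≤ ‖O.ρ‖ * O.K₁ :=
    (O.ρ.le_opNorm c).trans (mul_le_mul_of_nonneg_left hc (ContinuousLinearMap.opNorm_nonneg _))
  have hv : ‖O.v c‖ ≤ ‖O.v‖ * O.K₁ :=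
    (O.v.le_opNorm c).trans (mul_le_mul_of_nonneg_left hc (ContinuousLinearMap.opNorm_nonneg _))
  have hKw : 0 ≤ O.D.K * w := mul_nonneg hK hw
  rw [h1]
  refine (norm_add_le _ _).trans ((add_le_add h2 h3).trans ?_)
  calc O.D.K * w * ‖O.ρ c‖ + O.D.K * ‖O.v c‖ * 1 * w
      = O.D.K * w * ‖O.ρ c‖ + O.D.K * w * ‖O.v c‖ := by ring
    _ ≤ O.D.K * w * (‖O.ρ‖ * O.K₁) + O.D.K * w * (‖O.v‖ * O.K₁) :=
        add_le_add (mul_le_mul_of_nonneg_left hρ hKw) (mul_le_mul_of_nonneg_left hv hKw)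
    _ = O.D.K * (‖O.ρ‖ + ‖O.v‖) * O.K₁ * w := by ring

end OData

end Pool.Agent.FinBlk
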