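import Pool.Agent.FinBlk.Int

/-!
# Semiprime Banach algebras with dense socle (T2, text 7)
-/

set_option autoImplicit false
set_option linter.unusedSectionVars false

noncomputable section

namespace Pool.Agent.FinBlk

universe u v

open ContinuousLinearMap Filter Topology Finset
open Pool.Agent.MP_a77edb_an Pool.Agent.CptDim

variable (A : Type u) [NonUnitalNormedRing A] [NormedSpace ℂ A]

/-- `A` is semiprime: `a A a = 0` only for `a = 0`. -/
def Semiprime : Prop := ∀ a : A, (∀ x : A, a * x * a = 0) → a = 0

/-- The socle: the sum of the minimal left ideals `A e`. -/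
def socle : Submodule ℂ A := Submodule.span ℂ {y | ∃ e x : A, MinIdem e ∧ y = x * e}

variable {A} [IsScalarTower ℂ A A] [SMulCommClass ℂ A A]

/-- Module `sa`. -/
theorem exists_inv (hA : Semiprime A) {e f a : A} (he : MinIdem e) (hf : MinIdem f)
    (h : f * a * e ≠ 0) : ∃ b : A, e * b * f * a * e = e := by
  have hz : ¬ ∀ x : A, (f * a * e) * x * (f * a * e) = 0 := fun H => h (hA _ H)
  push Not at hz
  obtain ⟨x, hx⟩ := hz
  obtain ⟨t, ht⟩ := he.2.2 (x * f * a)
  have h1 : (f * a * e) * x * (f * a * e) = t • (f * a * e) := by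
    have : (f * a * e) * x * (f * a * e) = f * a * (e * (x * f * a) * e) := by
      simp only [mul_assoc]
    rw [this, ht, mul_smul_comm]
  have ht0 : t ≠ 0 := by
    rintro rfl
    rw [zero_smul] at h1
    exact hx h1
  refine ⟨t⁻¹ • x, ?_⟩
  have h2 : e * (t⁻¹ • x) * f * a * e = t⁻¹ • (e * (x * f * a) * e) := by
    simp only [mul_smul_comm, smul_mul_assoc, mul_assoc]
  rw [h2, ht, smul_smul, inv_mul_cancel₀ ht0, one_smul]

/-- Module `sb`: `f A e` is at most one-dimensional. -/
theorem rank_one (hA : Semiprime A) {e f a : A} (he : MinIdem e) (hf : MinIdem f)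
    (h : f * a * e ≠ 0) (c : A) : ∃ t : ℂ, f * c * e = t • (f * a * e) := by
  obtain ⟨b, hb⟩ := exists_inv hA he hf h
  obtain ⟨s, hs⟩ := hf.2.2 (c * e * b)
  refine ⟨s, ?_⟩
  calc f * c * e = f * c * (e * b * f * a * e) := by rw [hb]
    _ = (f * (c * e * b) * f) * a * e := by simp only [mul_assoc]
    _ = s • (f * a * e) := by rw [hs]; simp only [smul_mul_assoc]

/-- Module `sc`: `x f` acts on `A e` as an operator of rank at most one. -/
theorem compactOn_mul (hA : Semiprime A) {e f : A} (he : MinIdem e) (hf : MinIdem f) (x : A) :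
    CompactOn e (x * f) 0 := by
  by_cases h0 : ∀ z : A, x * f * (z * e) = 0
  · refine ⟨{0}, isCompact_singleton, fun z _ => ?_⟩
    rw [h0 z, zero_smul, sub_zero]
    rfl
  · push Not at h0
    obtain ⟨a, ha⟩ := h0
    have hfa : f * a * e ≠ 0 := by
      intro h
      apply ha
      have : x * f * (a * e) = x * (f * a * e) := by simp only [mul_assoc]
      rw [this, h, mul_zero]
    set w : A := x * f * (a * e) with hw
    have hwn : 0 < ‖w‖ := norm_pos_iff.2 ha
    refine ⟨(fun t : ℂ => t • w) '' Metric.closedBall 0 (‖x * f‖ / ‖w‖), ?_, fun z hz => ?_⟩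
    · exact (isCompact_closedBall _ _).image (by fun_prop)
    · obtain ⟨t, ht⟩ := rank_one hA he hf hfa z
      have h1 : x * f * (z * e) = t • w := by
        have : x * f * (z * e) = x * (f * z * e) := by simp only [mul_assoc]
        rw [this, ht, mul_smul_comm, hw]
        simp only [mul_assoc]
      refine ⟨t, ?_, ?_⟩
      · rw [mem_closedBall_zero_iff, le_div_iff₀ hwn, ← norm_smul, ← h1]
        calc ‖x * f * (z * e)‖ ≤ ‖x * f‖ * ‖z * e‖ := norm_mul_le _ _
          _ ≤ ‖x * f‖ * 1 := by gcongr
          _ = ‖x * f‖ := mul_one _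
      · show t • w = _
        rw [h1, zero_smul, sub_zero]

/-- Module `sd`. -/
theorem faithful_of_semiprime (hA : Semiprime A) {e : A} (he : MinIdem e) : Faithful e := by
  intro u hu
  refine hA _ fun x => ?_
  have h1 : e * u * x * (e * u) = e * u * (x * e) * u := by simp only [mul_assoc]
  rw [h1, hu x, zero_mul]

/-- Module `se`: `e A` and `A e` are in duality (finite-dimensional, both injections). -/
theorem functionals_of_fd (hA : Semiprime A) {e : A} (he : MinIdem e)
    (hfd : FiniteDimensional ℂ (lid e)) : GivesFunctionals e := by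
  classical
  choose t ht using he.2.2
  have hadd : ∀ a b, t (a + b) = t a + t b := by
    intro a b
    have h1 : t (a + b) • e = (t a + t b) • e := by
      rw [← ht (a + b), mul_add, add_mul, ht, ht, add_smul]
    exact smul_left_injective ℂ he.1 h1
  have hsm : ∀ (c : ℂ) a, t (c • a) = c * t a := by
    intro c a
    have h1 : t (c • a) • e = (c * t a) • e := by
      rw [← ht (c • a), mul_smul_comm, smul_mul_assoc, ht, smul_smul]
    exact smul_left_injective ℂ he.1 h1
  let T : A →ₗ[ℂ] ℂ :=
    { toFun := t, map_add' := hadd, map_smul' := fun c a => by simpa using hsm c a }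
  let P : A →ₗ[ℂ] Module.Dual ℂ (lid e) :=
    { toFun := fun u => T ∘ₗ (LinearMap.mulLeft ℂ u) ∘ₗ (lid e).subtype
      map_add' := fun u v => by
        ext y
        show T ((u + v) * (y : A)) = T (u * (y : A)) + T (v * (y : A))
        rw [add_mul, map_add]
      map_smul' := fun c u => by
        ext y
        show T ((c • u) * (y : A)) = c • T (u * (y : A))
        rw [smul_mul_assoc, map_smul] }
  have hP : ∀ (u : A) (y : lid e), P u y = t (u * (y : A)) := fun u y => rfl
  have hsep : (LinearMap.range P).dualCoannihilator = ⊥ := by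
    rw [eq_bot_iff]
    intro y hy
    rw [Submodule.mem_dualCoannihilator] at hy
    have h1 : ∀ u : A, t (u * (y : A)) = 0 := fun u => hy (P u) ⟨u, rfl⟩
    have hye : (y : A) * e = (y : A) := mul_e he y.2
    have h2 : (y : A) = 0 := by
      refine hA _ fun x => ?_
      have h3 : e * (x * (y : A)) * e = 0 := by rw [ht, h1, zero_smul]
      calc (y : A) * x * (y : A) = ((y : A) * e) * x * ((y : A) * e) := by rw [hye]
        _ = (y : A) * (e * (x * (y : A)) * e) := by simp only [mul_assoc]
        _ = 0 := by rw [h3, mul_zero]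
    show y = 0
    exact Subtype.ext h2
  have hfin : FiniteDimensional ℂ (Module.Dual ℂ (lid e)) := inferInstance
  have htop : LinearMap.range P = ⊤ := by
    have h1 := Subspace.dualCoannihilator_dualAnnihilator_eq (W := LinearMap.range P)
    rw [hsep, Submodule.dualAnnihilator_bot] at h1
    exact h1.symm
  intro φ
  have h2 : ((φ : A →ₗ[ℂ] ℂ) ∘ₗ (lid e).subtype) ∈ LinearMap.range P := by
    rw [htop]; trivial
  obtain ⟨u, hu⟩ := h2
  refine ⟨e * u, fun x => ?_⟩
  have h3 : P u ⟨x * e, ⟨x, rfl⟩⟩ = φ (x * e) := by rw [hu]; rfl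
  rw [hP] at h3
  have h4 : e * u * (x * e) = e * (u * (x * e)) * e := by
    simp only [mul_assoc, he.2.1]
  rw [h4, ht, h3]

/-- Module `sf`: representatives of the classes of minimal idempotents (`e ~ f` iff
`f A e ≠ 0`). -/
theorem exists_repr (hA : Semiprime A) : ∃ (κ : Type u) (e : κ → A), (∀ k, MinIdem (e k)) ∧
    (∀ k l, k ≠ l → ∀ a : A, e k * a * e l = 0) ∧
    ∀ f : A, MinIdem f → ∃ k, ∃ a : A, f * a * e k ≠ 0 := by
  classical
  let S : Setoid {e : A // MinIdem e} :=
    { r := fun f e => ∃ a : A, (f : A) * a * (e : A) ≠ 0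
      iseqv :=
        { refl := fun e => ⟨e, by rw [e.2.2.1, e.2.2.1]; exact e.2.1⟩
          symm := fun {f e} ⟨a, ha⟩ => by
            obtain ⟨b, hb⟩ := exists_inv hA e.2 f.2 ha
            refine ⟨b, fun h => e.2.1 ?_⟩
            rw [← hb, h, zero_mul, zero_mul]
          trans := fun {f e g} ⟨a, ha⟩ ⟨c, hc⟩ => by
            obtain ⟨b, hb⟩ := exists_inv hA e.2 f.2 ha
            refine ⟨a * e * c, fun h => hc ?_⟩
            have h1 : (e : A) * c * (g : A) = (e * b * f * a * e) * c * g := by rw [hb]
            have h2 : ((e : A) * b * f * a * e) * c * g = e * b * (f * (a * e * c) * g) := by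
              simp only [mul_assoc]
            rw [h1, h2, h, mul_zero] } }
  refine ⟨Quotient S, fun k => (Quotient.out k : {e : A // MinIdem e}).1,
    fun k => (Quotient.out k : {e : A // MinIdem e}).2, fun k l hkl a => ?_, fun f hf => ?_⟩
  · by_contra h
    apply hkl
    have h1 : S.r (Quotient.out k) (Quotient.out l) := ⟨a, h⟩
    have h2 := Quotient.sound h1
    rwa [Quotient.out_eq, Quotient.out_eq] at h2
  · refine ⟨Quotient.mk S ⟨f, hf⟩, ?_⟩
    have h1 : S.r (Quotient.out (Quotient.mk S ⟨f, hf⟩)) ⟨f, hf⟩ :=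
      Quotient.exact (Quotient.out_eq (Quotient.mk S ⟨f, hf⟩))
    exact S.iseqv.symm h1

/-- Module `sg`. -/
theorem denseScalar_of_socle (hA : Semiprime A) (hs : Dense (socle A : Set A)) {κ : Type u}
    (e : κ → A) (he : ∀ k, MinIdem (e k)) (horth : ∀ k l, k ≠ l → ∀ a : A, e k * a * e l = 0) :
    DenseScalar e := by
  have key : ∀ b ∈ socle A, (∀ k, CompactOn (e k) b 0) ∧
      {k | ∃ x : A, b * (x * e k) ≠ (0 : ℂ) • (x * e k)}.Finite := by
    intro b hb
    unfold socle at hb
    induction hb using Submodule.span_induction with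
    | mem y hy =>
      obtain ⟨f, x, hf, rfl⟩ := hy
      refine ⟨fun k => compactOn_mul hA (he k) hf x, Set.Subsingleton.finite ?_⟩
      rintro k ⟨z, hz⟩ l ⟨w, hw⟩
      rw [zero_smul] at hz hw
      by_contra hkl
      have h1 : f * z * e k ≠ 0 := by
        intro h
        apply hz
        have : x * f * (z * e k) = x * (f * z * e k) := by simp only [mul_assoc]
        rw [this, h, mul_zero]
      have h2 : f * w * e l ≠ 0 := by
        intro h
        apply hw
        have : x * f * (w * e l) = x * (f * w * e l) := by simp only [mul_assoc]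
        rw [this, h, mul_zero]
      obtain ⟨b, hb⟩ := exists_inv hA (he k) hf h1
      obtain ⟨c, hc⟩ := exists_inv hA (he l) hf h2
      -- `f` is a nonzero multiple of `f z e_k b f`
      obtain ⟨s, hs⟩ := hf.2.2 (z * e k * b)
      have hs1 : s • (f * z * e k) = f * z * e k := by
        calc s • (f * z * e k) = (s • f) * z * e k := by simp only [smul_mul_assoc]
          _ = (f * (z * e k * b) * f) * z * e k := by rw [hs]
          _ = f * z * (e k * b * f * z * e k) := by simp only [mul_assoc]
          _ = f * z * e k := by rw [hb]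
      have hs0 : s = 1 := by
        have h3 : s • (f * z * e k) = (1 : ℂ) • (f * z * e k) := by rw [hs1, one_smul]
        exact smul_left_injective ℂ h1 h3
      rw [hs0, one_smul] at hs
      apply h2
      calc f * w * e l = (f * (z * e k * b) * f) * w * e l := by rw [hs]
        _ = f * z * (e k * (b * f * w) * e l) := by simp only [mul_assoc]
        _ = 0 := by rw [horth k l hkl, mul_zero]
    | zero =>
      refine ⟨fun k => ⟨{0}, isCompact_singleton, fun z _ => ?_⟩, ?_⟩
      · rw [zero_mul, zero_smul, sub_zero]; rfl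
      · convert Set.finite_empty
        ext k
        simp
    | add x y _ _ hx hy =>
      refine ⟨fun k => ?_, (hx.2.union hy.2).subset ?_⟩
      · obtain ⟨K, hK, h1⟩ := hx.1 k
        obtain ⟨L, hL, h2⟩ := hy.1 k
        refine ⟨(fun p : A × A => p.1 + p.2) '' (K ×ˢ L), (hK.prod hL).image (by fun_prop),
          fun z hz => ⟨(_, _), ⟨h1 z hz, h2 z hz⟩, ?_⟩⟩
        simp only [zero_smul, sub_zero, add_mul]
      · rintro k ⟨z, hz⟩
        by_contra hcon
        have hc1 : x * (z * e k) = (0 : ℂ) • (z * e k) := by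
          by_contra h
          exact hcon (Or.inl ⟨z, h⟩)
        have hc2 : y * (z * e k) = (0 : ℂ) • (z * e k) := by
          by_contra h
          exact hcon (Or.inr ⟨z, h⟩)
        apply hz
        rw [add_mul, hc1, hc2, zero_smul, add_zero]
    | smul c x _ hx =>
      refine ⟨fun k => ?_, hx.2.subset ?_⟩
      · obtain ⟨K, hK, h1⟩ := hx.1 k
        refine ⟨(fun y : A => c • y) '' K, hK.image (by fun_prop), fun z hz => ?_⟩
        refine ⟨_, h1 z hz, ?_⟩
        simp only [zero_smul, sub_zero, smul_mul_assoc]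
      · rintro k ⟨z, hz⟩
        refine ⟨z, fun h => hz ?_⟩
        rw [smul_mul_assoc, h, zero_smul, smul_zero]
  intro a ε hε
  obtain ⟨b, hb, hab⟩ := Metric.mem_closure_iff.1 (hs a) ε hε
  rw [dist_eq_norm] at hab
  exact ⟨b, 0, hab, key b hb⟩

/-- Module `sh`: `A` acts faithfully on the sum of the `A e_k`. -/
theorem faithful_all (hA : Semiprime A) (hs : Dense (socle A : Set A)) {κ : Type u} (e : κ → A)
    (he : ∀ k, MinIdem (e k)) (hall : ∀ f : A, MinIdem f → ∃ k, ∃ a : A, f * a * e k ≠ 0) (a : A)
    (h : ∀ k, ∀ x : A, a * (x * e k) = 0) : a = 0 := by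
  have key : ∀ y ∈ socle A, a * y = 0 := by
    intro y hy
    unfold socle at hy
    induction hy using Submodule.span_induction with
    | mem y hy =>
      obtain ⟨f, x, hf, rfl⟩ := hy
      obtain ⟨k, c, hc⟩ := hall f hf
      obtain ⟨b, hb⟩ := exists_inv hA (he k) hf hc
      obtain ⟨s, hs⟩ := hf.2.2 (c * e k * b)
      have hs1 : s • (f * c * e k) = f * c * e k := by
        calc s • (f * c * e k) = (s • f) * c * e k := by simp only [smul_mul_assoc]
          _ = (f * (c * e k * b) * f) * c * e k := by rw [hs]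
          _ = f * c * (e k * b * f * c * e k) := by simp only [mul_assoc]
          _ = f * c * e k := by rw [hb]
      have hs0 : s = 1 := by
        have h3 : s • (f * c * e k) = (1 : ℂ) • (f * c * e k) := by rw [hs1, one_smul]
        exact smul_left_injective ℂ hc h3
      rw [hs0, one_smul] at hs
      calc a * (x * f) = a * (x * (f * (c * e k * b) * f)) := by rw [hs]
        _ = (a * ((x * f * c) * e k)) * b * f := by simp only [mul_assoc]
        _ = 0 := by rw [h k, zero_mul, zero_mul]
    | zero => exact mul_zero a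
    | add x y _ _ hx hy => rw [mul_add, hx, hy, add_zero]
    | smul c x _ hx => rw [mul_smul_comm, hx, smul_zero]
  have hall0 : ∀ y : A, a * y = 0 := by
    intro y
    have h1 : IsClosed {y : A | a * y = 0} := isClosed_eq (by fun_prop) continuous_const
    have h2 : closure (socle A : Set A) ⊆ {y : A | a * y = 0} :=
      closure_minimal (fun y hy => key y hy) h1
    exact h2 (hs y)
  refine hA a fun x => ?_
  rw [hall0 x, zero_mul]

/-- Module `si`. -/
theorem infinite_of (hA : Semiprime A) (hs : Dense (socle A : Set A))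
    (hinf : ¬ FiniteDimensional ℂ A) {κ : Type u} (e : κ → A) (he : ∀ k, MinIdem (e k))
    (hall : ∀ f : A, MinIdem f → ∃ k, ∃ a : A, f * a * e k ≠ 0) :
    Infinite κ ∨ ∃ k, ¬ FiniteDimensional ℂ (lid (e k)) := by
  classical
  by_contra hcon
  push Not at hcon
  obtain ⟨hκ, hfd⟩ := hcon
  apply hinf
  have hκ' : Finite κ := hκ
  have hfd' : ∀ k, FiniteDimensional ℂ (lid (e k)) := hfd
  have hmem : ∀ (k : κ) (a : A) (y : A), y ∈ lid (e k) → LinearMap.mulLeft ℂ a y ∈ lid (e k) := by
    rintro k a y ⟨x, rfl⟩
    refine ⟨a * x, ?_⟩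
    show a * x * e k = a * (x * e k)
    rw [mul_assoc]
  let Φ : A →ₗ[ℂ] (∀ k : κ, (lid (e k)) →ₗ[ℂ] (lid (e k))) :=
    { toFun := fun a k => (LinearMap.mulLeft ℂ a).restrict (hmem k a)
      map_add' := fun a b => by
        ext k y
        show (a + b) * (y : A) = a * (y : A) + b * (y : A)
        rw [add_mul]
      map_smul' := fun c a => by
        ext k y
        show (c • a) * (y : A) = c • (a * (y : A))
        rw [smul_mul_assoc] }
  have hinj : Function.Injective Φ := by
    rw [injective_iff_map_eq_zero]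
    intro a ha
    refine faithful_all hA hs e he hall a fun k x => ?_
    have h1 : Φ a k ⟨x * e k, ⟨x, rfl⟩⟩ = 0 := by rw [ha]; rfl
    have h2 := congrArg Subtype.val h1
    exact h2
  have := Fintype.ofFinite κ
  exact FiniteDimensional.of_injective Φ hinj

variable [CompleteSpace A]

/-- T*. -/
theorem soc_main (hA : Semiprime A) (hs : Dense (socle A : Set A))
    (hinf : ¬ FiniteDimensional ℂ A)
    (hfun : ∀ e : A, MinIdem e → ¬ FiniteDimensional ℂ (lid e) → GivesFunctionals e) :
    ¬ Vanish A := by
  obtain ⟨κ, e, he, horth, hall⟩ := exists_repr hA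
  refine int_main e he horth (fun k => ?_) (fun k _ => faithful_of_semiprime hA (he k))
    (infinite_of hA hs hinf e he hall) (denseScalar_of_socle hA hs e he horth)
  by_cases h : FiniteDimensional ℂ (lid (e k))
  · exact functionals_of_fd hA (he k) h
  · exact hfun (e k) (he k) h

end Pool.Agent.FinBlk
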