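import Pool.Agent.FinBlk.HFin
import Pool.Agent.MP_a77edb_an.Bridge

/-!
# Adjoining scalars (T2, text 5)
-/

set_option autoImplicit false
set_option linter.unusedSectionVars false

noncomputable section

namespace Pool.Agent.FinBlk

universe u v

open ContinuousLinearMap Filter Topology
open Pool.Agent.MP_a77edb_an Pool.Agent.CptDim

section Transfer

variable {A I : Type u} [NonUnitalNormedRing A] [NormedSpace ℂ A] [NonUnitalNormedRing I]
  [NormedSpace ℂ I]

private def fbl_ua_act (c : A →L[ℂ] ℂ) (θ : A ≃L[ℂ] I) (X : LeftMod I) :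
    A →L[ℂ] X →L[ℂ] X :=
  X.act.comp (θ : A →L[ℂ] I) + c.smulRight (ContinuousLinearMap.id ℂ X.carrier)

private theorem fbl_ua_act_apply (c : A →L[ℂ] ℂ) (θ : A ≃L[ℂ] I) (X : LeftMod I) (a : A) (x : X) :
    fbl_ua_act c θ X a x = X.act (θ a) x + c a • x := rfl

private theorem fbl_ua_theta_mul (c : A →L[ℂ] ℂ) (θ : A ≃L[ℂ] I)
    (hθ : ∀ a b, θ a * θ b = θ (a * b - c b • a - c a • b)) (a b : A) :
    θ (a * b) = θ a * θ b + c b • θ a + c a • θ b := by
  rw [hθ, map_sub, map_sub, map_smul, map_smul]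
  abel

private theorem fbl_ua_act_mul (c : A →L[ℂ] ℂ) (hc : ∀ a b, c (a * b) = c a * c b) (θ : A ≃L[ℂ] I)
    (hθ : ∀ a b, θ a * θ b = θ (a * b - c b • a - c a • b)) (X : LeftMod I) (a b : A) (x : X) :
    fbl_ua_act c θ X (a * b) x = fbl_ua_act c θ X a (fbl_ua_act c θ X b x) := by
  rw [fbl_ua_act_apply, fbl_ua_act_apply, fbl_ua_act_apply, fbl_ua_theta_mul c θ hθ, hc]
  rw [map_add, map_add, _root_.add_apply, _root_.add_apply, X.act_mul,
    map_smul, map_smul, _root_.smul_apply, _root_.smul_apply, map_add,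
    map_smul, smul_add, smul_smul]
  abel

/-- the module -/
private def fbl_ua_mod (c : A →L[ℂ] ℂ) (hc : ∀ a b, c (a * b) = c a * c b) (θ : A ≃L[ℂ] I)
    (hθ : ∀ a b, θ a * θ b = θ (a * b - c b • a - c a • b)) (X : LeftMod I) : LeftMod A where
  carrier := X.carrier
  act := fbl_ua_act c θ X
  act_mul := fbl_ua_act_mul c hc θ hθ X

private theorem fbl_ua_coc (c : A →L[ℂ] ℂ) (θ : A ≃L[ℂ] I)
    (hθ : ∀ a b, θ a * θ b = θ (a * b - c b • a - c a • b)) (X N : LeftMod I)
    (D : I →L[ℂ] X →L[ℂ] N)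
    (hD : ∀ a b x, D (a * b) x = N.act a (D b x) + D a (X.act b x)) (a b : A) (x : X) :
    D (θ (a * b)) x = fbl_ua_act c θ N a (D (θ b) x) + D (θ a) (fbl_ua_act c θ X b x) := by
  rw [fbl_ua_act_apply, fbl_ua_act_apply, fbl_ua_theta_mul c θ hθ]
  rw [map_add, map_add, _root_.add_apply, _root_.add_apply, hD,
    map_smul, map_smul, _root_.smul_apply, _root_.smul_apply, map_add,
    map_smul]
  abel

/-- Module `ua`: an `I`-module `X` is an `A`-module by `a x = θ(a) x + c(a) x`; `D ∘ θ` is a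
cocycle; `ψ ∘ θ⁻¹`. -/
theorem vanish_transfer (c : A →L[ℂ] ℂ) (hc : ∀ a b, c (a * b) = c a * c b) (θ : A ≃L[ℂ] I)
    (hθ : ∀ a b, θ a * θ b = θ (a * b - c b • a - c a • b)) (hV : Vanish A) : Vanish I := by
  intro X N W D₁ D₂ h₁ h₂
  obtain ⟨ψ, hψ⟩ : ∃ ψ : A →L[ℂ] X.carrier →L[ℂ] W.carrier, ∀ (a b : A) (x : X.carrier),
      D₂ (θ a) (D₁ (θ b) x) = fbl_ua_act c θ W a (ψ b x) - ψ (a * b) x +
        ψ a (fbl_ua_act c θ X b x) :=
    hV (fbl_ua_mod c hc θ hθ X) (fbl_ua_mod c hc θ hθ N) (fbl_ua_mod c hc θ hθ W)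
      (D₁.comp (θ : A →L[ℂ] I)) (D₂.comp (θ : A →L[ℂ] I))
      (fun a b x => fbl_ua_coc c θ hθ X N D₁ h₁ a b x)
      (fun a b x => fbl_ua_coc c θ hθ N W D₂ h₂ a b x)
  refine ⟨ψ.comp (θ.symm : I →L[ℂ] A), fun a b x => ?_⟩
  obtain ⟨a, rfl⟩ := θ.surjective a
  obtain ⟨b, rfl⟩ := θ.surjective b
  have h := hψ a b x
  have e1 : (ψ.comp (θ.symm : I →L[ℂ] A)) (θ a) = ψ a := by
    show ψ (θ.symm (θ a)) = ψ a
    rw [θ.symm_apply_apply]
  have e2 : (ψ.comp (θ.symm : I →L[ℂ] A)) (θ b) = ψ b := by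
    show ψ (θ.symm (θ b)) = ψ b
    rw [θ.symm_apply_apply]
  have e3 : (ψ.comp (θ.symm : I →L[ℂ] A)) (θ a * θ b) = ψ (a * b - c b • a - c a • b) := by
    show ψ (θ.symm (θ a * θ b)) = _
    rw [hθ, θ.symm_apply_apply]
  rw [e1, e2, e3, h, fbl_ua_act_apply, fbl_ua_act_apply]
  rw [map_sub, map_sub, map_smul, map_smul, _root_.sub_apply,
    _root_.sub_apply, _root_.smul_apply, _root_.smul_apply,
    map_add (ψ a), map_smul (ψ a)]
  abel

variable [IsScalarTower ℂ A A] [SMulCommClass ℂ A A] [IsScalarTower ℂ I I] [SMulCommClass ℂ I I]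

/-- Module `ub`: `p'_k = θ(p_k)`, `θ(p_k) θ(a) = θ(p_k a - c(a) p_k)`. -/
theorem blk_transfer (B : BlkS A) (c : A →L[ℂ] ℂ)
    (hcB : ∀ (b : A) (t : ℂ) (k₀ : ℕ), (∀ k, k₀ ≤ k → B.p k * b = t • B.p k) → c b = t)
    (θ : A ≃L[ℂ] I) (hθ : ∀ a b, θ a * θ b = θ (a * b - c b • a - c a • b)) :
    Nonempty (Blk I) := by
  have hcp : ∀ k, c (B.p k) = 0 := fun k => hcB (B.p k) 0 (k + 1) fun l hl => by
    rw [zero_smul, B.p_orth l k (by omega)]
  have hl : ∀ k a, θ (B.p k) * θ a = θ (B.p k * a - c a • B.p k) := fun k a => by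
    rw [hθ, hcp, zero_smul, sub_zero]
  have hr : ∀ k a, θ a * θ (B.p k) = θ (B.p k * a - c a • B.p k) := fun k a => by
    rw [hθ, hcp, zero_smul, sub_zero, B.p_comm]
  refine ⟨{ p := fun k => θ (B.p k)
            p_ne := fun k h => B.p_ne k ?_
            p_idem := fun k => ?_
            p_comm := fun k x => ?_
            p_orth := fun k l h => ?_
            fin := fun k => ?_
            dense := fun x ε hε => ?_ }⟩
  · exact θ.injective (by rw [h, map_zero])
  · rw [hl, hcp, zero_smul, sub_zero, B.p_idem]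
  · obtain ⟨a, rfl⟩ := θ.surjective x
    rw [hl, hr]
  · rw [hl, hcp, zero_smul, sub_zero, B.p_orth k l h, map_zero]
  · have hfin : FiniteDimensional ℂ (vp (B.p k)) := B.fin k
    have hle : vp (θ (B.p k)) ≤ (vp (B.p k)).map (θ : A →ₗ[ℂ] I) := by
      intro x hx
      obtain ⟨a, rfl⟩ := θ.surjective x
      have h1 : θ (B.p k) * θ a = θ a := hx
      rw [hl] at h1
      have h2 : B.p k * a - c a • B.p k = a := θ.injective h1
      have h3 : B.p k * a = B.p k * a - c a • B.p k := by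
        have h4 : B.p k * (B.p k * a - c a • B.p k) = B.p k * a := by rw [h2]
        rw [mul_sub, ← mul_assoc, B.p_idem, mul_smul_comm, B.p_idem] at h4
        exact h4.symm
      refine ⟨a, ?_, rfl⟩
      show B.p k * a = a
      rw [h3, h2]
    exact Submodule.finiteDimensional_of_le hle
  · obtain ⟨a, rfl⟩ := θ.surjective x
    have hpos : 0 < ‖(θ : A →L[ℂ] I)‖ + 1 := by positivity
    obtain ⟨b, hb, t, k₀, hk⟩ := B.dense a (ε / (‖(θ : A →L[ℂ] I)‖ + 1)) (by positivity)
    refine ⟨θ b, ?_, k₀, fun k hk' => ?_⟩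
    · have h1 : ‖(θ : A →L[ℂ] I) (a - b)‖ ≤ ‖(θ : A →L[ℂ] I)‖ * ‖a - b‖ :=
        ContinuousLinearMap.le_opNorm _ _
      have h2 : θ a - θ b = (θ : A →L[ℂ] I) (a - b) := by
        rw [map_sub]
        rfl
      rw [h2]
      have h3 : (‖(θ : A →L[ℂ] I)‖ + 1) * ‖a - b‖ < ε := by
        rw [lt_div_iff₀ hpos] at hb
        rw [mul_comm]
        exact hb
      have h4 : 0 ≤ ‖a - b‖ := norm_nonneg _
      linarith
    · rw [hl, hk k hk', hcB b t k₀ hk, sub_self, map_zero]

end Transfer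

variable {A : Type u} [NonUnitalNormedRing A] [NormedSpace ℂ A] [IsScalarTower ℂ A A]
  [SMulCommClass ℂ A A]

private theorem fbl_uc_t (B : BlkS A) (b : A) (t : ℂ) (k₀ : ℕ)
    (h : ∀ k, k₀ ≤ k → B.p k * b = t • B.p k) (k : ℕ) (hk : k₀ ≤ k) : B.t k b = t := by
  rw [← B.t_p_mul k b, h k hk, map_smul, B.t_p, smul_eq_mul, mul_one]

private theorem fbl_uc_lim (B : BlkS A) (a : A) : ∃ l : ℂ, Tendsto (fun k => B.t k a) atTop (𝓝 l) := by
  refine cauchySeq_tendsto_of_complete (Metric.cauchySeq_iff'.2 fun ε hε => ?_)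
  obtain ⟨b, hb, t, k₀, hk⟩ := B.dense a (ε / 2) (by positivity)
  refine ⟨k₀, fun n hn => ?_⟩
  have h1 : B.t n b = t := fbl_uc_t B b t k₀ hk n hn
  have h2 : B.t k₀ b = t := fbl_uc_t B b t k₀ hk k₀ le_rfl
  have h3 : B.t n a - B.t k₀ a = B.t n (a - b) - B.t k₀ (a - b) := by
    rw [map_sub, map_sub, h1, h2]
    ring
  rw [dist_eq_norm, h3]
  have h4 := norm_sub_le (B.t n (a - b)) (B.t k₀ (a - b))
  have h5 := B.norm_t_le n (a - b)
  have h6 := B.norm_t_le k₀ (a - b)
  linarith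

/-- Module `uc`: `c(a) = lim t_k(a)`. -/
theorem exists_c (B : BlkS A) : ∃ c : A →L[ℂ] ℂ, (∀ a b, c (a * b) = c a * c b) ∧
    ∀ (b : A) (t : ℂ) (k₀ : ℕ), (∀ k, k₀ ≤ k → B.p k * b = t • B.p k) → c b = t := by
  choose l hl using fbl_uc_lim B
  let f : A →ₗ[ℂ] ℂ :=
    { toFun := l
      map_add' := fun a b => tendsto_nhds_unique (hl (a + b)) (by
        simp only [map_add]
        exact (hl a).add (hl b))
      map_smul' := fun s a => tendsto_nhds_unique (hl (s • a)) (by
        simp only [map_smul]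
        exact (hl a).const_smul s) }
  have hf : ∀ a, ‖f a‖ ≤ 1 * ‖a‖ := fun a => by
    rw [one_mul]
    exact le_of_tendsto (hl a).norm (Eventually.of_forall fun k => B.norm_t_le k a)
  let c : A →L[ℂ] ℂ := f.mkContinuous 1 hf
  have hcb : ∀ (b : A) (t : ℂ) (k₀ : ℕ), (∀ k, k₀ ≤ k → B.p k * b = t • B.p k) → c b = t := by
    intro b t k₀ h
    refine tendsto_nhds_unique (hl b) ?_
    refine tendsto_const_nhds.congr' ?_
    filter_upwards [eventually_ge_atTop k₀] with k hk
    exact (fbl_uc_t B b t k₀ h k hk).symm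
  refine ⟨c, ?_, hcb⟩
  have hcl : ∀ a, ∀ ε : ℝ, 0 < ε → ∃ b, dist a b < ε ∧
      b ∈ {b | ∃ (t : ℂ) (k₀ : ℕ), ∀ k, k₀ ≤ k → B.p k * b = t • B.p k} := fun a ε hε => by
    obtain ⟨b, hb, h⟩ := B.dense a ε hε
    exact ⟨b, by rwa [dist_eq_norm], h⟩
  have hd : Dense {b | ∃ (t : ℂ) (k₀ : ℕ), ∀ k, k₀ ≤ k → B.p k * b = t • B.p k} := by
    rw [Metric.dense_iff]
    intro a r hr
    obtain ⟨b, hb, hb'⟩ := hcl a r hr
    exact ⟨b, by rwa [Metric.mem_ball, dist_comm], hb'⟩
  have hc1 : ∀ a b, b ∈ {b | ∃ (t : ℂ) (k₀ : ℕ), ∀ k, k₀ ≤ k → B.p k * b = t • B.p k} →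
      a ∈ {b | ∃ (t : ℂ) (k₀ : ℕ), ∀ k, k₀ ≤ k → B.p k * b = t • B.p k} →
      c (a * b) = c a * c b := by
    rintro a b ⟨s, k₁, h₁⟩ ⟨t, k₀, h₀⟩
    rw [hcb a t k₀ h₀, hcb b s k₁ h₁]
    refine hcb (a * b) (t * s) (max k₀ k₁) fun k hk => ?_
    rw [← mul_assoc, h₀ k ((le_max_left _ _).trans hk), smul_mul_assoc,
      h₁ k ((le_max_right _ _).trans hk), smul_smul]
  have hc2 : ∀ a b, b ∈ {b | ∃ (t : ℂ) (k₀ : ℕ), ∀ k, k₀ ≤ k → B.p k * b = t • B.p k} →
      c (a * b) = c a * c b := by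
    intro a b hb
    have h1 : Continuous fun a => c (a * b) := c.continuous.comp (continuous_id.mul continuous_const)
    have h2 : Continuous fun a => c a * c b := c.continuous.mul continuous_const
    have h3 := Continuous.ext_on hd h1 h2 (fun a ha => hc1 a b hb ha)
    exact congrFun h3 a
  intro a b
  have h1 : Continuous fun b => c (a * b) := c.continuous.comp (continuous_const.mul continuous_id)
  have h2 : Continuous fun b => c a * c b := continuous_const.mul c.continuous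
  have h3 := Continuous.ext_on hd h1 h2 (fun b hb => hc2 a b hb)
  exact congrFun h3 b

/-- The ideal `{(s, a) : s + c(a) = 0}` of `A₊`. -/
def ip (c : A →L[ℂ] ℂ) (hc : ∀ a b, c (a * b) = c a * c b) :
    NonUnitalSubalgebra ℂ (HomDim.APlus A) where
  carrier := {x | (WithLp.ofLp x).fst + c (WithLp.ofLp x).snd = 0}
  add_mem' := fun {x y} hx hy => by
    show ((WithLp.ofLp x).fst + (WithLp.ofLp y).fst) +
      c ((WithLp.ofLp x).snd + (WithLp.ofLp y).snd) = 0
    have hx' : (WithLp.ofLp x).fst + c (WithLp.ofLp x).snd = 0 := hx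
    have hy' : (WithLp.ofLp y).fst + c (WithLp.ofLp y).snd = 0 := hy
    rw [map_add]
    linear_combination hx' + hy'
  zero_mem' := by
    show (0 : ℂ) + c (0 : A) = 0
    rw [map_zero, add_zero]
  mul_mem' := fun {x y} hx hy => by
    have hx' : (WithLp.ofLp x).fst + c (WithLp.ofLp x).snd = 0 := hx
    have hy' : (WithLp.ofLp y).fst + c (WithLp.ofLp y).snd = 0 := hy
    show (WithLp.ofLp x).fst * (WithLp.ofLp y).fst +
      c ((WithLp.ofLp x).fst • (WithLp.ofLp y).snd + (WithLp.ofLp y).fst • (WithLp.ofLp x).snd +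
        (WithLp.ofLp x).snd * (WithLp.ofLp y).snd) = 0
    rw [map_add, map_add, map_smul, map_smul, hc, smul_eq_mul, smul_eq_mul]
    linear_combination ((WithLp.ofLp y).fst + c (WithLp.ofLp y).snd) * hx'
  smul_mem' := fun s x hx => by
    have hx' : (WithLp.ofLp x).fst + c (WithLp.ofLp x).snd = 0 := hx
    show s • (WithLp.ofLp x).fst + c (s • (WithLp.ofLp x).snd) = 0
    rw [map_smul, smul_eq_mul, smul_eq_mul]
    linear_combination s * hx'

private theorem fbl_ud_norm (x : HomDim.APlus A) :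
    ‖x‖ = ‖(WithLp.ofLp x).fst‖ + ‖(WithLp.ofLp x).snd‖ :=
  WithLp.unitization_norm_def x

/-- the functional with kernel `ip` -/
private def fbl_ud_f (c : A →L[ℂ] ℂ) : HomDim.APlus A →L[ℂ] ℂ :=
  LinearMap.mkContinuous
    { toFun := fun x => (WithLp.ofLp x).fst + c (WithLp.ofLp x).snd
      map_add' := fun x y => by
        show ((WithLp.ofLp x).fst + (WithLp.ofLp y).fst) +
          c ((WithLp.ofLp x).snd + (WithLp.ofLp y).snd) = _
        rw [map_add]
        ring
      map_smul' := fun s x => by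
        show s • (WithLp.ofLp x).fst + c (s • (WithLp.ofLp x).snd) =
          s • ((WithLp.ofLp x).fst + c (WithLp.ofLp x).snd)
        rw [map_smul, smul_add] } (1 + ‖c‖)
    (fun x => by
      show ‖(WithLp.ofLp x).fst + c (WithLp.ofLp x).snd‖ ≤ _
      rw [fbl_ud_norm]
      have h1 := norm_add_le (WithLp.ofLp x).fst (c (WithLp.ofLp x).snd)
      have h2 := c.le_opNorm (WithLp.ofLp x).snd
      have h3 : 0 ≤ ‖c‖ := norm_nonneg c
      have h4 : 0 ≤ ‖(WithLp.ofLp x).fst‖ := norm_nonneg _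
      have h5 : 0 ≤ ‖(WithLp.ofLp x).snd‖ := norm_nonneg _
      have h6 : 0 ≤ ‖c‖ * ‖(WithLp.ofLp x).fst‖ := mul_nonneg h3 h4
      nlinarith)

variable [CompleteSpace A]

/-- Module `ud`: `ip c hc` is closed in `A₊`. -/
theorem complete_ip (c : A →L[ℂ] ℂ) (hc : ∀ a b, c (a * b) = c a * c b) :
    CompleteSpace (ip c hc) := by
  have h1 : IsClosed {x : HomDim.APlus A | fbl_ud_f c x = 0} :=
    isClosed_eq (fbl_ud_f c).continuous continuous_const
  have h2 : ((ip c hc : NonUnitalSubalgebra ℂ (HomDim.APlus A)) : Set (HomDim.APlus A)) =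
      {x : HomDim.APlus A | fbl_ud_f c x = 0} := rfl
  have h3 : IsClosed ((ip c hc : NonUnitalSubalgebra ℂ (HomDim.APlus A)) :
      Set (HomDim.APlus A)) := by
    rw [h2]
    exact h1
  exact h3.completeSpace_coe

/-- Module `ue`: `θ(a) = a - c(a) 1`. -/
theorem exists_theta (c : A →L[ℂ] ℂ) (hc : ∀ a b, c (a * b) = c a * c b) :
    ∃ θ : A ≃L[ℂ] ip c hc, ∀ a b, θ a * θ b = θ (a * b - c b • a - c a • b) := by
  have hmem : ∀ a : A, WithLp.toLp 1 (Unitization.inl (-c a) + Unitization.inr a : Unitization ℂ A) ∈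
      ip c hc := fun a => by
    show (Unitization.inl (-c a) + Unitization.inr a : Unitization ℂ A).fst +
      c (Unitization.inl (-c a) + Unitization.inr a : Unitization ℂ A).snd = 0
    simp
  let f : A →ₗ[ℂ] ip c hc :=
    { toFun := fun a => ⟨WithLp.toLp 1 (Unitization.inl (-c a) + Unitization.inr a), hmem a⟩
      map_add' := fun a b => by
        refine Subtype.ext ?_
        show WithLp.toLp 1 (Unitization.inl (-c (a + b)) + Unitization.inr (a + b) :
            Unitization ℂ A) =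
          WithLp.toLp 1 ((Unitization.inl (-c a) + Unitization.inr a : Unitization ℂ A) +
            (Unitization.inl (-c b) + Unitization.inr b : Unitization ℂ A))
        congr 1
        ext
        · simp
          ring
        · simp
      map_smul' := fun s a => by
        refine Subtype.ext ?_
        show WithLp.toLp 1 (Unitization.inl (-c (s • a)) + Unitization.inr (s • a) :
            Unitization ℂ A) =
          WithLp.toLp 1 (s • (Unitization.inl (-c a) + Unitization.inr a : Unitization ℂ A))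
        congr 1
        ext
        · simp
        · simp }
  let g : ip c hc →ₗ[ℂ] A :=
    { toFun := fun x => (WithLp.ofLp (x : HomDim.APlus A)).snd
      map_add' := fun x y => rfl
      map_smul' := fun s x => rfl }
  have hf : ∀ a, ‖f a‖ ≤ (‖c‖ + 1) * ‖a‖ := fun a => by
    show ‖(WithLp.toLp 1 (Unitization.inl (-c a) + Unitization.inr a : Unitization ℂ A) :
      HomDim.APlus A)‖ ≤ _
    rw [fbl_ud_norm]
    have h1 : (WithLp.ofLp (WithLp.toLp 1 (Unitization.inl (-c a) + Unitization.inr a :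
      Unitization ℂ A) : HomDim.APlus A)).fst = - c a := by simp
    have h2 : (WithLp.ofLp (WithLp.toLp 1 (Unitization.inl (-c a) + Unitization.inr a :
      Unitization ℂ A) : HomDim.APlus A)).snd = a := by simp
    rw [h1, h2, norm_neg]
    have h3 := c.le_opNorm a
    linarith
  have hg : ∀ x, ‖g x‖ ≤ 1 * ‖x‖ := fun x => by
    show ‖(WithLp.ofLp (x : HomDim.APlus A)).snd‖ ≤ 1 * ‖(x : HomDim.APlus A)‖
    rw [fbl_ud_norm, one_mul]
    have h4 : 0 ≤ ‖(WithLp.ofLp (x : HomDim.APlus A)).fst‖ := norm_nonneg _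
    linarith
  have hfg : ∀ x, f (g x) = x := fun x => by
    refine Subtype.ext ?_
    have hx : (WithLp.ofLp (x : HomDim.APlus A)).fst +
      c (WithLp.ofLp (x : HomDim.APlus A)).snd = 0 := x.2
    show WithLp.toLp 1 (Unitization.inl (-c (WithLp.ofLp (x : HomDim.APlus A)).snd) +
      Unitization.inr (WithLp.ofLp (x : HomDim.APlus A)).snd : Unitization ℂ A) =
      (x : HomDim.APlus A)
    have h5 : (Unitization.inl (-c (WithLp.ofLp (x : HomDim.APlus A)).snd) +
      Unitization.inr (WithLp.ofLp (x : HomDim.APlus A)).snd : Unitization ℂ A) =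
      WithLp.ofLp (x : HomDim.APlus A) := by
      ext
      · simp only [Unitization.fst_add, Unitization.fst_inl, Unitization.fst_inr, add_zero]
        linear_combination -hx
      · simp
    rw [h5]
  have hgf : ∀ a, g (f a) = a := fun a => by
    show (WithLp.ofLp (WithLp.toLp 1 (Unitization.inl (-c a) + Unitization.inr a :
      Unitization ℂ A) : HomDim.APlus A)).snd = a
    simp
  let F : A →L[ℂ] ip c hc := f.mkContinuous (‖c‖ + 1) hf
  let G : ip c hc →L[ℂ] A := g.mkContinuous 1 hg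
  let θ : A ≃L[ℂ] ip c hc := ContinuousLinearEquiv.equivOfInverse F G hgf hfg
  refine ⟨θ, fun a b => ?_⟩
  refine Subtype.ext ?_
  show WithLp.toLp 1 ((Unitization.inl (-c a) + Unitization.inr a : Unitization ℂ A) *
    (Unitization.inl (-c b) + Unitization.inr b : Unitization ℂ A)) =
    WithLp.toLp 1 (Unitization.inl (-c (a * b - c b • a - c a • b)) +
      Unitization.inr (a * b - c b • a - c a • b) : Unitization ℂ A)
  congr 1
  ext
  · simp only [Unitization.fst_mul, Unitization.fst_add, Unitization.fst_inl, Unitization.fst_inr,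
      add_zero, map_sub, map_smul, hc, smul_eq_mul]
    ring
  · simp only [Unitization.snd_mul, Unitization.snd_add, Unitization.snd_inl, Unitization.snd_inr,
      zero_add, Unitization.fst_add, Unitization.fst_inl, Unitization.fst_inr,
      add_zero, neg_smul]
    abel

/-- Module `uf`. -/
theorem no_blocksS (B : BlkS A) (hV : Vanish A) : False := by
  obtain ⟨c, hc, hcB⟩ := exists_c B
  obtain ⟨θ, hθ⟩ := exists_theta c hc
  have : CompleteSpace (ip c hc) := complete_ip c hc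
  letI : NormedSpace ℂ (ip c hc) :=
    { (inferInstance : Module ℂ (ip c hc)) with
      norm_smul_le := fun s x => norm_smul_le s (x : HomDim.APlus A) }
  obtain ⟨B'⟩ := blk_transfer (I := ip c hc) B c hcB θ hθ
  exact no_blocks B' (vanish_transfer (I := ip c hc) c hc θ hθ hV)

end Pool.Agent.FinBlk
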